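import Pool.Agent.J4H38.GS.Stm2

/-!
# The pointwise companion of project GS (row MP_bc6037_nt): up to FOUR of the shifts equal to zero

For `J ≤ 4` and almost every `α ∈ [0,1)^k` the error term for the shift vector `(0, …, 0, α)` (`J` zeros) is `O(x^(1/2+ε))`.
-/

set_option autoImplicit false

open MeasureTheory Set Filter Polynomial

namespace Pool.Agent.J4H30.GS

open Pool.Agent.J4H38.GS

noncomputable section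

/-- (Z4P) from Z2 and Z3 (as `t_Z4` in `Pool/Agent/J4H94/GS/Z4.lean`): for `J = 4` it is Z2 and Z3 (at `1 - σ`) with
`w = 1 + κ - (k + 4) (1/2 - σ) > 1`; for `J ≤ 4` put `A = |ζ(σ + it)| |t|^{-(1/2 - σ)}` and use `A^J ≤ 1 + A^4`, so that
`|ζ|^J |t|^{k(1/2-σ)-1-κ} = A^J |t|^{(J+k)(1/2-σ)-1-κ} ≤ |t|^{(J+k)(1/2-σ)-1-κ} + |ζ|^4 |t|^{(J+k-4)(1/2-σ)-1-κ}`. -/
def S_Z4P : Prop := ∀ (J k : ℕ) (σ κ : ℝ), J ≤ 4 → 0 < σ → σ < 1 / 2 → ((J + k : ℕ) : ℝ) * (1 / 2 - σ) < κ →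
  ∫⁻ t in {t : ℝ | 1 ≤ |t|}, ‖riemannZeta (σ + t * Complex.I)‖ₑ ^ J *
    ENNReal.ofReal (|t| ^ ((k : ℝ) * (1 / 2 - σ) - 1 - κ)) < ⊤

/-- (FM2) from SM, Z1, Z4P, the first moment version of FU2.  As `t_FU` in `Pool/Agent/J4H13/GS/Fu.lean`: for `1 ≤ |t|`
`∫⁻ a, ‖DD a s + 1/(s-1)‖ₑ ≤ C' |t|^(1/2 - σ)`, from `one_factor` and `x ≤ (lam + x²/lam)/2` with
`lam = (1 + |t|)^(1/2 - σ)` (or Cauchy-Schwarz); so the expectation of the integrand is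
`≤ C'^k |ζ(s)|^J |t|^(k (1/2 - σ)) |t|^(-1) |t|^(-κ)`, which is integrable by Z4P. -/
def S_FM2 : Prop := ∀ (J k : ℕ) (σ κ : ℝ), J ≤ 4 → 0 < σ → σ < 1 / 2 → ((J + k : ℕ) : ℝ) * (1 / 2 - σ) < κ →
  ∀ᵐ α ∂(volume.restrict (cube k)),
    ∫⁻ t in {t : ℝ | 1 ≤ |t|}, ‖ZZ (J + k) (app J k α) (σ + t * Complex.I)‖ₑ * ENNReal.ofReal (|t| ^ (-κ)) < ⊤

/-- the theorem (assembly: helper30) -/
def S_PT2 : Prop := ∀ J k : ℕ, J ≤ 4 → 1 ≤ J + k → ∀ᵐ α ∂(volume.restrict (cube k)), ∃ P : ℝ[X],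
  P.degree < ((J + k : ℕ) : WithBot ℕ) ∧ ∀ ε : ℝ, 0 < ε → ∃ C : ℝ, ∀ x : ℝ, 1 ≤ x →
    |(cnt (J + k) (app J k α) x : ℝ) - x * P.eval (Real.log x)| ≤ C * x ^ (1 / 2 + ε)

end

end Pool.Agent.J4H30.GS
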