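import Pool.Agent.J4H30.GS.Mo
import Pool.Agent.J4H30.GS.Stm2
import Pool.Agent.J4H38.GS.Asm2
import Pool.Agent.J4H94.GS.Z4

/-!
# The pointwise companion of project GS: assembly
-/

set_option autoImplicit false

open MeasureTheory Set Filter Polynomial

namespace Pool.Agent.J4H30.GS

open Pool.Agent.J4H38.GS

noncomputable section

/-- the weighted first moment on the line -/
theorem G_L1 {k : ℕ} {α : Fin k → ℝ} (P : ℂ[X]) {G : ℂ → ℂ} {σ κ : ℝ} (hσ : 0 < σ) (hκ : 0 < κ)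
    (hd : DifferentiableOn ℂ G {s : ℂ | 0 < s.re})
    (hG : ∀ s : ℂ, 0 < s.re → s ≠ 1 → ZZ k α s = G s + RR P s)
    (hZ : ∫⁻ t in {t : ℝ | 1 ≤ |t|}, ‖ZZ k α (σ + t * Complex.I)‖ₑ * ENNReal.ofReal (|t| ^ (-κ)) < ⊤) :
    Integrable (fun t : ℝ => ‖G (σ + t * Complex.I)‖ * (1 + |t|) ^ (-κ)) := by
  have hms : MeasurableSet {t : ℝ | 1 ≤ |t|} := measurableSet_le measurable_const (by fun_prop)
  have hcont : Continuous (fun t : ℝ => G (σ + t * Complex.I)) := by
    rw [continuous_iff_continuousAt]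
    intro t
    have h1 : DifferentiableAt ℂ G (σ + t * Complex.I) :=
      (hd _ (by simp [hσ])).differentiableAt ((isOpen_lt continuous_const Complex.continuous_re).mem_nhds (by simp [hσ]))
    have h2 : ContinuousAt (fun t : ℝ => (σ : ℂ) + t * Complex.I) t := by fun_prop
    exact ContinuousAt.comp (f := fun t : ℝ => (σ : ℂ) + t * Complex.I) h1.continuousAt h2
  have hwc : Continuous (fun t : ℝ => (1 + |t|) ^ (-κ)) := by
    refine Continuous.rpow_const (by fun_prop) fun t => Or.inl ?_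
    have := abs_nonneg t
    linarith
  have hfc : Continuous (fun t : ℝ => ‖G (σ + t * Complex.I)‖ * (1 + |t|) ^ (-κ)) := hcont.norm.mul hwc
  refine ⟨hfc.aestronglyMeasurable, ?_⟩
  unfold HasFiniteIntegral
  have hen : ∀ t : ℝ, ‖‖G (σ + t * Complex.I)‖ * (1 + |t|) ^ (-κ)‖ₑ =
      ‖G (σ + t * Complex.I)‖ₑ * ENNReal.ofReal ((1 + |t|) ^ (-κ)) := by
    intro t
    rw [enorm_mul, enorm_norm, Real.enorm_of_nonneg (by positivity)]
  simp_rw [hen]
  rw [← lintegral_add_compl _ hms]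
  refine ENNReal.add_lt_top.2 ⟨?_, ?_⟩
  · obtain ⟨C, hC, hR⟩ := RR_le P
    have h3 : ∀ t ∈ {t : ℝ | 1 ≤ |t|}, ‖G (σ + t * Complex.I)‖ₑ * ENNReal.ofReal ((1 + |t|) ^ (-κ)) ≤
        ‖ZZ k α (σ + t * Complex.I)‖ₑ * ENNReal.ofReal (|t| ^ (-κ)) +
          ENNReal.ofReal C * ENNReal.ofReal (|t| ^ (-(1 + κ))) := by
      intro t ht
      have ht' : 1 ≤ |t| := ht
      have ht0 : 0 < |t| := by linarith
      have hne : (σ : ℂ) + t * Complex.I ≠ 1 := by
        intro h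
        have h4 := congrArg Complex.im h
        simp at h4
        rw [h4] at ht'
        simp at ht'
        linarith
      have h4 : G (σ + t * Complex.I) = ZZ k α (σ + t * Complex.I) - RR P (σ + t * Complex.I) := by
        rw [hG _ (by simp [hσ]) hne]
        ring
      have h5 : ‖RR P (σ + t * Complex.I)‖ ≤ C / |t| := by
        have := hR (σ + t * Complex.I) (by simpa using ht')
        simpa using this
      have h6 : ‖G (σ + t * Complex.I)‖ₑ ≤ ‖ZZ k α (σ + t * Complex.I)‖ₑ + ENNReal.ofReal (C / |t|) := by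
        rw [h4]
        refine (enorm_sub_le).trans ?_
        gcongr
        rw [← ofReal_norm]
        exact ENNReal.ofReal_le_ofReal h5
      have h7 : ENNReal.ofReal ((1 + |t|) ^ (-κ)) ≤ ENNReal.ofReal (|t| ^ (-κ)) := by
        apply ENNReal.ofReal_le_ofReal
        exact Real.rpow_le_rpow_of_nonpos ht0 (by linarith) (by linarith)
      calc ‖G (σ + t * Complex.I)‖ₑ * ENNReal.ofReal ((1 + |t|) ^ (-κ)) ≤
            (‖ZZ k α (σ + t * Complex.I)‖ₑ + ENNReal.ofReal (C / |t|)) * ENNReal.ofReal (|t| ^ (-κ)) :=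
            mul_le_mul' h6 h7
        _ = ‖ZZ k α (σ + t * Complex.I)‖ₑ * ENNReal.ofReal (|t| ^ (-κ)) +
            ENNReal.ofReal C * ENNReal.ofReal (|t| ^ (-(1 + κ))) := by
            rw [add_mul]
            congr 1
            rw [← ENNReal.ofReal_mul (by positivity), ← ENNReal.ofReal_mul hC]
            congr 1
            rw [neg_add, Real.rpow_add ht0, Real.rpow_neg_one]
            ring
    refine lt_of_le_of_lt (setLIntegral_mono' hms h3) ?_
    rw [lintegral_add_right _ (by fun_prop), lintegral_const_mul' _ _ ENNReal.ofReal_ne_top]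
    exact ENNReal.add_lt_top.2 ⟨hZ, ENNReal.mul_lt_top ENNReal.ofReal_lt_top
      (Pool.Agent.J4H94.GS.tail_fin (by linarith))⟩
  · obtain ⟨B, hB⟩ := (isCompact_Icc (a := (-1 : ℝ)) (b := 1)).exists_bound_of_continuousOn
      hfc.continuousOn
    have hsub : {t : ℝ | 1 ≤ |t|}ᶜ ⊆ Icc (-1) 1 := by
      intro t ht
      have ht' : ¬ 1 ≤ |t| := ht
      have := abs_lt.1 (not_le.1 ht')
      exact ⟨this.1.le, this.2.le⟩
    refine lt_of_le_of_lt (lintegral_mono_set hsub) ?_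
    have h1 : ∀ t ∈ Icc (-1 : ℝ) 1, ‖G (σ + t * Complex.I)‖ₑ * ENNReal.ofReal ((1 + |t|) ^ (-κ)) ≤
        ENNReal.ofReal B := by
      intro t ht
      rw [← hen, ← ofReal_norm]
      exact ENNReal.ofReal_le_ofReal (hB t ht)
    refine lt_of_le_of_lt (setLIntegral_mono' measurableSet_Icc h1) ?_
    rw [setLIntegral_const]
    exact ENNReal.mul_lt_top (by finiteness) (by simp)

/-- the exponents used -/
def kp (n : ℕ) : ℝ := 1 / ((n : ℝ) + 2)

/-- the lines used -/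
def sp (K n : ℕ) : ℝ := 1 / 2 - kp n / (2 * K)

lemma kp_pos (n : ℕ) : 0 < kp n ∧ kp n ≤ 1 / 2 := by
  unfold kp
  refine ⟨by positivity, ?_⟩
  apply one_div_le_one_div_of_le (by norm_num)
  have : (0 : ℝ) ≤ n := Nat.cast_nonneg _
  linarith

lemma sp_lt {K : ℕ} (hK : 1 ≤ K) (n : ℕ) : 0 < sp K n ∧ sp K n < 1 / 2 ∧
    (K : ℝ) * (1 / 2 - sp K n) < kp n := by
  have hK1 : (1 : ℝ) ≤ K := by exact_mod_cast hK
  obtain ⟨h1, h2⟩ := kp_pos n
  have h3 : 0 < kp n / (2 * K) := by positivity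
  have h4 : kp n / (2 * K) ≤ 1 / 4 := by
    rw [div_le_iff₀ (by positivity)]
    nlinarith
  unfold sp
  refine ⟨by linarith, by linarith, ?_⟩
  have h5 : (K : ℝ) * (1 / 2 - (1 / 2 - kp n / (2 * K))) = kp n / 2 := by
    field_simp
    ring
  rw [h5]
  linarith

/-- the theorem for one shift vector -/
theorem core_pt (hDAN : S_DAN) (hTR : S_TR) (hPP : S_PP) (hPM : S_PM) {K : ℕ} (hK : 1 ≤ K) {β : Fin K → ℝ}
    (hcube : β ∈ cube K)
    (hβ : ∀ n : ℕ, ∫⁻ t in {t : ℝ | 1 ≤ |t|}, ‖ZZ K β (sp K n + t * Complex.I)‖ₑ *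
      ENNReal.ofReal (|t| ^ (-kp n)) < ⊤) :
    ∃ P : ℝ[X], P.degree < (K : WithBot ℕ) ∧ ∀ ε : ℝ, 0 < ε → ∃ C : ℝ, ∀ x : ℝ, 1 ≤ x →
      |(cnt K β x : ℝ) - x * P.eval (Real.log x)| ≤ C * x ^ (1 / 2 + ε) := by
  have hcube' : ∀ i, 0 ≤ β i ∧ β i < 1 := fun i => hcube i (mem_univ i)
  obtain ⟨hm, hb, ht⟩ := hTR K β hcube
  obtain ⟨P, G, hdeg, hd, hG, hgr⟩ := hPP K (fun i => DD (β i)) hK
    (fun i => (hDAN (β i) (hcube' i).1 (hcube' i).2).1)
    (fun i s hs => (hDAN (β i) (hcube' i).1 (hcube' i).2).2 s hs)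
  obtain ⟨A, hA, hA'⟩ := gg_le P hb
  set Pr : ℝ[X] := P.sum fun j p => monomial j p.re with hPr
  have hre : ∀ u : ℝ, Pr.eval u = (P.eval (u : ℂ)).re := by
    intro u
    rw [hPr, Polynomial.sum, Polynomial.eval_finsetSum, Polynomial.eval_eq_sum, Polynomial.sum,
      Complex.re_sum]
    refine Finset.sum_congr rfl (fun j _ => ?_)
    rw [eval_monomial, ← Complex.ofReal_pow, Complex.re_mul_ofReal]
  have hmon : Monotone (fun u : ℝ => (cnt K β (Real.exp u) : ℝ)) := fun u v huv => by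
    have := cnt_mono (fun i => (hcube' i).1) (Real.exp_le_exp.2 huv)
    show (cnt K β (Real.exp u) : ℝ) ≤ (cnt K β (Real.exp v) : ℝ)
    exact_mod_cast this
  have key : ∀ n : ℕ, ∃ C : ℝ, ∀ v : ℝ, 0 ≤ v →
      |(cnt K β (Real.exp v) : ℝ) - Real.exp v * Pr.eval v| ≤ C * Real.exp ((1 / 2 + kp n) * v) := by
    intro n
    obtain ⟨hs, hs1, -⟩ := sp_lt hK n
    obtain ⟨hk, hk1⟩ := kp_pos n
    obtain ⟨C, m, hC, hCm⟩ := hgr (sp K n) hs
    have hDat : Pool.Agent.J4H45.GS.Dat (gg K β P) G (sp K n) 2 (7 / 4) A C m :=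
      { s0 := hs
        sc := by linarith
        bc := by norm_num
        meas := gg_meas P hm
        neg := fun u hu => by rw [gg, if_pos hu]
        bd := hA'
        diff := hd
        gr := fun s h1 h2 => hCm s h1 (by linarith)
        tr := fun t => gg_trans P hm hb ht hPM hG t }
    exact mono_pt hmon hre (fun u hu => by
      rw [gg, if_neg (not_lt.2 hu)]
      simp) hDat (by norm_num) hs1.le hk (by linarith) (G_L1 P hs hk hd hG (hβ n))
  refine ⟨Pr, ?_, fun ε hε => ?_⟩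
  · rw [hPr, Polynomial.sum]
    refine lt_of_le_of_lt (Polynomial.degree_sum_le _ _) ?_
    rw [Finset.sup_lt_iff (by
      rw [bot_lt_iff_ne_bot]
      exact WithBot.coe_ne_bot)]
    intro j hj
    refine lt_of_le_of_lt (degree_monomial_le _ _) ?_
    exact lt_of_le_of_lt (le_degree_of_ne_zero (mem_support_iff.1 hj)) hdeg
  · obtain ⟨n, hn⟩ := exists_nat_gt (1 / ε)
    obtain ⟨C, h⟩ := key n
    refine ⟨|C|, fun x hx => ?_⟩
    have hx0 : 0 < x := by linarith
    have h1 := h (Real.log x) (Real.log_nonneg hx)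
    rw [Real.exp_log hx0] at h1
    refine h1.trans ((mul_le_mul_of_nonneg_right (le_abs_self C) (Real.exp_pos _).le).trans ?_)
    refine mul_le_mul_of_nonneg_left ?_ (abs_nonneg C)
    have e1 : Real.exp ((1 / 2 + kp n) * Real.log x) = x ^ (1 / 2 + kp n) := by
      rw [Real.rpow_def_of_pos hx0]; ring_nf
    rw [e1]
    apply Real.rpow_le_rpow_of_exponent_le hx
    have h3 : kp n ≤ ε := by
      unfold kp
      rw [div_le_iff₀ (by positivity)]
      rw [div_lt_iff₀ hε] at hn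
      nlinarith
    linarith

theorem t_PT2 (hDAN : S_DAN) (hFM2 : S_FM2) (hTR : S_TR) (hPP : S_PP) (hPM : S_PM) : S_PT2 := by
  intro J k hJ hk
  have hae : ∀ᵐ α ∂(volume.restrict (cube k)), ∀ n : ℕ,
      ∫⁻ t in {t : ℝ | 1 ≤ |t|}, ‖ZZ (J + k) (app J k α) (sp (J + k) n + t * Complex.I)‖ₑ *
        ENNReal.ofReal (|t| ^ (-kp n)) < ⊤ :=
    ae_all_iff.2 (fun n => hFM2 J k (sp (J + k) n) (kp n) hJ (sp_lt hk n).1 (sp_lt hk n).2.1
      (sp_lt hk n).2.2)
  have hcm : MeasurableSet (cube k) := MeasurableSet.univ_pi (fun _ => measurableSet_Ico)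
  filter_upwards [hae, ae_restrict_mem hcm] with α hα hcube
  exact core_pt hDAN hTR hPP hPM hk (app_mem hcube) hα

end

end Pool.Agent.J4H30.GS
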