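import Pool.Agent.J4H45.GS.Ms1

/-!
# Gaussian averages of a function from the first moment of its transform on a line
-/

set_option autoImplicit false

open Filter Topology MeasureTheory Set

namespace Pool.Agent.J4H30.GS

open Pool.Agent.J4H45.GS

lemma beat {κ ε y : ℝ} (hκ : 0 ≤ κ) (hκ2 : κ ≤ 2) (hε : 0 < ε) (hε1 : ε ≤ 1) :
    Real.exp (-(ε * y ^ 2)) ≤ 2 ^ (κ / 2) * ε ^ (-(κ / 2)) * (1 + |y|) ^ (-κ) := by
  have hy0 : 0 ≤ |y| := abs_nonneg y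
  have hsq : |y| ^ 2 = y ^ 2 := sq_abs y
  have hy1 : 0 < 1 + |y| := by linarith
  set X : ℝ := ε / 2 * (1 + |y|) ^ 2 with hX
  have hX0 : 0 < X := by positivity
  have hX1 : X ≤ 1 + ε * y ^ 2 := by
    have h1 : (1 + |y|) ^ 2 ≤ 2 * (1 + y ^ 2) := by nlinarith [sq_nonneg (1 - |y|)]
    calc X ≤ ε / 2 * (2 * (1 + y ^ 2)) := by
          rw [hX]; exact mul_le_mul_of_nonneg_left h1 (by positivity)
      _ = ε + ε * y ^ 2 := by ring
      _ ≤ 1 + ε * y ^ 2 := by linarith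
  have hq0 : 0 < 1 + ε * y ^ 2 := by positivity
  have h2 : Real.exp (-(ε * y ^ 2)) ≤ (1 + ε * y ^ 2)⁻¹ := by
    rw [Real.exp_neg]
    apply inv_anti₀ hq0
    have := Real.add_one_le_exp (ε * y ^ 2)
    linarith
  have h3 : (1 + ε * y ^ 2)⁻¹ ≤ ((1 + ε * y ^ 2)⁻¹) ^ (κ / 2) := by
    have h4 : (1 + ε * y ^ 2)⁻¹ ≤ 1 := inv_le_one_of_one_le₀ (by nlinarith [sq_nonneg y])
    have h5 := Real.rpow_le_rpow_of_exponent_ge (inv_pos.mpr hq0) h4 (show κ / 2 ≤ 1 by linarith)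
    rwa [Real.rpow_one] at h5
  have h6 : ((1 + ε * y ^ 2)⁻¹) ^ (κ / 2) ≤ (X⁻¹) ^ (κ / 2) :=
    Real.rpow_le_rpow (by positivity) (inv_anti₀ hX0 hX1) (by linarith)
  have h7 : (X⁻¹) ^ (κ / 2) = 2 ^ (κ / 2) * ε ^ (-(κ / 2)) * (1 + |y|) ^ (-κ) := by
    rw [Real.inv_rpow hX0.le, ← Real.rpow_neg hX0.le, hX, Real.mul_rpow (by positivity) (by positivity),
      Real.div_rpow hε.le (by norm_num)]
    have h8 : ((1 + |y|) ^ 2) ^ (-(κ / 2)) = (1 + |y|) ^ (-κ) := by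
      rw [← Real.rpow_natCast (1 + |y|) 2, ← Real.rpow_mul hy1.le]
      congr 1
      push_cast; ring
    rw [h8, Real.rpow_neg (by norm_num : (0 : ℝ) ≤ 2)]
    field_simp
  exact h2.trans (h3.trans (h6.trans h7.le))

theorem avb {g : ℝ → ℂ} {G : ℂ → ℂ} {σ c b A C : ℝ} {m : ℕ} (H : Dat g G σ c b A C m) {κ : ℝ}
    (hκ : 0 ≤ κ) (hκ2 : κ ≤ 2)
    (hB : Integrable (fun y : ℝ => ‖G (σ + y * Complex.I)‖ * (1 + |y|) ^ (-κ))) :
    ∃ K : ℝ, 0 ≤ K ∧ ∀ v ε : ℝ, 0 < ε → ε ≤ 1 →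
      ‖((Real.sqrt (Real.pi / ε) : ℝ) : ℂ) * phi g ε v‖ ≤
        K * Real.exp (σ * v) * ε ^ (-(κ / 2)) := by
  set B : ℝ := ∫ y : ℝ, ‖G (σ + y * Complex.I)‖ * (1 + |y|) ^ (-κ) with hBdef
  have hB0 : 0 ≤ B := integral_nonneg fun y => by positivity
  refine ⟨Real.exp (σ ^ 2) * 2 ^ (κ / 2) * B, by positivity, fun v ε hε hε1 => ?_⟩
  rw [← line_c H hε v, ← shift H hε v]
  refine (norm_integral_le_integral_norm _).trans ?_
  have hle : ∀ y : ℝ, ‖G (σ + y * Complex.I) * gs ε v (σ + y * Complex.I)‖ ≤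
      (Real.exp (σ ^ 2) * Real.exp (σ * v) * (2 ^ (κ / 2) * ε ^ (-(κ / 2)))) *
        (‖G (σ + y * Complex.I)‖ * (1 + |y|) ^ (-κ)) := by
    intro y
    rw [norm_mul, gs_norm]
    have e1 : Real.exp (ε * (((σ : ℂ) + y * Complex.I).re ^ 2 - ((σ : ℂ) + y * Complex.I).im ^ 2) +
        ((σ : ℂ) + y * Complex.I).re * v) = Real.exp (ε * σ ^ 2) * Real.exp (σ * v) *
          Real.exp (-(ε * y ^ 2)) := by
      rw [← Real.exp_add, ← Real.exp_add]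
      congr 1
      simp
      ring
    rw [e1]
    have e2 : Real.exp (ε * σ ^ 2) ≤ Real.exp (σ ^ 2) := by
      apply Real.exp_le_exp.2
      nlinarith [sq_nonneg σ]
    have e3 := beat (y := y) hκ hκ2 hε hε1
    calc ‖G (σ + y * Complex.I)‖ * (Real.exp (ε * σ ^ 2) * Real.exp (σ * v) *
          Real.exp (-(ε * y ^ 2)))
        ≤ ‖G (σ + y * Complex.I)‖ * (Real.exp (σ ^ 2) * Real.exp (σ * v) *
          (2 ^ (κ / 2) * ε ^ (-(κ / 2)) * (1 + |y|) ^ (-κ))) := by gcongr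
      _ = _ := by ring
  calc ∫ y : ℝ, ‖G (σ + y * Complex.I) * gs ε v (σ + y * Complex.I)‖
      ≤ ∫ y : ℝ, (Real.exp (σ ^ 2) * Real.exp (σ * v) * (2 ^ (κ / 2) * ε ^ (-(κ / 2)))) *
        (‖G (σ + y * Complex.I)‖ * (1 + |y|) ^ (-κ)) :=
        integral_mono_of_nonneg (Eventually.of_forall fun y => norm_nonneg _) (hB.const_mul _)
          (Eventually.of_forall hle)
    _ = _ := by
        rw [integral_const_mul, ← hBdef]; ring

end Pool.Agent.J4H30.GS
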