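import Mathlib
import Pool.Agent.Helper523.UF.StatPhase
import Pool.Agent.J4H38.GS.Stm

/-!
# (KB) of project GS: the oscillatory integral `∫_1^∞ e(-m y) y^{-s-1} dy`

Substituting `y = e^u` the phase becomes `m e^u + t u / (2 π)`, whose second derivative is `m e^u`:
one application of the first and one of the second derivative test suffice.
-/

set_option autoImplicit false

namespace Pool.Agent.J4H30.GS

open MeasureTheory Set Filter
open Pool.Agent.Helper523.UF (e e_norm e_continuous first_deriv first_deriv_neg second_deriv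
  norm_int_neg)
open Pool.Agent.J4H38.GS

/-- Partial integration against the decreasing amplitude `exp (-σ u)`. -/
lemma amp {a b σ Q : ℝ} (hab : a ≤ b) (hσ : 0 < σ) (f : ℝ → ℂ) (hf : Continuous f)
    (hQ : ∀ x ∈ Icc a b, ‖∫ u in a..x, f u‖ ≤ Q) :
    ‖∫ u in a..b, (Real.exp (-σ * u) : ℂ) * f u‖ ≤ Real.exp (-σ * a) * Q := by
  set F : ℝ → ℂ := fun x => ∫ u in a..x, f u with hF
  have hQ0 : 0 ≤ Q := (norm_nonneg _).trans (hQ a ⟨le_rfl, hab⟩)
  have hFd : ∀ x, HasDerivAt F (f x) x := fun x =>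
    intervalIntegral.integral_hasDerivAt_right (hf.intervalIntegrable _ _)
      (hf.stronglyMeasurableAtFilter _ _) hf.continuousAt
  have hFc : Continuous F := continuous_iff_continuousAt.mpr fun x => (hFd x).continuousAt
  have hwd : ∀ x : ℝ, HasDerivAt (fun u : ℝ => (Real.exp (-σ * u) : ℂ))
      ((-σ * Real.exp (-σ * x) : ℝ) : ℂ) x := by
    intro x
    have h1 : HasDerivAt (fun u : ℝ => Real.exp (-σ * u)) (-σ * Real.exp (-σ * x)) x := by
      have h2 : HasDerivAt (fun u : ℝ => -σ * u) (-σ) x := by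
        simpa using (hasDerivAt_id x).const_mul (-σ)
      have := h2.exp
      rwa [mul_comm] at this
    exact h1.ofReal_comp
  have hwc : Continuous (fun x : ℝ => ((-σ * Real.exp (-σ * x) : ℝ) : ℂ)) := by fun_prop
  have hpi := intervalIntegral.integral_mul_deriv_eq_deriv_mul (a := a) (b := b)
    (u := fun u : ℝ => (Real.exp (-σ * u) : ℂ)) (v := F)
    (u' := fun x : ℝ => ((-σ * Real.exp (-σ * x) : ℝ) : ℂ)) (v' := f)
    (fun x _ => hwd x) (fun x _ => hFd x) (hwc.intervalIntegrable _ _) (hf.intervalIntegrable _ _)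
  have hFa : F a = 0 := by simp [hF]
  rw [hpi, hFa, mul_zero, sub_zero]
  have hb1 : ‖(Real.exp (-σ * b) : ℂ) * F b‖ ≤ Real.exp (-σ * b) * Q := by
    rw [norm_mul, Complex.norm_real, Real.norm_eq_abs, abs_of_pos (Real.exp_pos _)]
    exact mul_le_mul_of_nonneg_left (hQ b ⟨hab, le_rfl⟩) (Real.exp_pos _).le
  have hb2 : ‖∫ x in a..b, ((-σ * Real.exp (-σ * x) : ℝ) : ℂ) * F x‖ ≤
      (Real.exp (-σ * a) - Real.exp (-σ * b)) * Q := by
    have hle : ‖∫ x in a..b, ((-σ * Real.exp (-σ * x) : ℝ) : ℂ) * F x‖ ≤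
        ∫ x in a..b, σ * Real.exp (-σ * x) * Q := by
      apply intervalIntegral.norm_integral_le_of_norm_le hab
      · filter_upwards with x hx
        rw [norm_mul, Complex.norm_real, Real.norm_eq_abs, abs_mul, abs_neg, abs_of_pos hσ,
          abs_of_pos (Real.exp_pos _)]
        exact mul_le_mul_of_nonneg_left (hQ x ⟨hx.1.le, hx.2⟩) (by positivity)
      · exact (by fun_prop : Continuous fun x : ℝ => σ * Real.exp (-σ * x) * Q).intervalIntegrable _ _
    refine hle.trans (le_of_eq ?_)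
    have hder : ∀ x ∈ uIcc a b, HasDerivAt (fun x : ℝ => -Real.exp (-σ * x) * Q)
        (σ * Real.exp (-σ * x) * Q) x := by
      intro x _
      have h2 : HasDerivAt (fun u : ℝ => -σ * u) (-σ) x := by
        simpa using (hasDerivAt_id x).const_mul (-σ)
      have h3 := (h2.exp.fun_neg).mul_const Q
      have e1 : -(Real.exp (-σ * x) * -σ) * Q = σ * Real.exp (-σ * x) * Q := by ring
      rw [e1] at h3
      exact h3
    rw [intervalIntegral.integral_eq_sub_of_hasDerivAt hder
      ((by fun_prop : Continuous fun x : ℝ => σ * Real.exp (-σ * x) * Q).intervalIntegrable _ _)]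
    ring
  calc _ ≤ ‖(Real.exp (-σ * b) : ℂ) * F b‖ +
        ‖∫ x in a..b, ((-σ * Real.exp (-σ * x) : ℝ) : ℂ) * F x‖ := norm_sub_le _ _
    _ ≤ Real.exp (-σ * b) * Q + (Real.exp (-σ * a) - Real.exp (-σ * b)) * Q := add_le_add hb1 hb2
    _ = Real.exp (-σ * a) * Q := by ring

/-- the phase -/
noncomputable def ph (n τ u : ℝ) : ℝ := n * Real.exp u + τ / (2 * Real.pi) * u

lemma ph_d (n τ x : ℝ) : HasDerivAt (ph n τ) (n * Real.exp x + τ / (2 * Real.pi)) x := by
  unfold ph
  have h1 := (Real.hasDerivAt_exp x).const_mul n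
  have h2 : HasDerivAt (fun u : ℝ => τ / (2 * Real.pi) * u) (τ / (2 * Real.pi)) x := by
    simpa using (hasDerivAt_id x).const_mul (τ / (2 * Real.pi))
  exact h1.add h2

lemma ph_dd (n τ x : ℝ) : HasDerivAt (fun x => n * Real.exp x + τ / (2 * Real.pi))
    (n * Real.exp x) x := by
  have h1 := (Real.hasDerivAt_exp x).const_mul n
  simpa using h1.add_const (τ / (2 * Real.pi))

lemma ph_cont (n τ : ℝ) : Continuous (ph n τ) := by unfold ph; fun_prop

/-- (i): `|τ| ≤ n`. -/
lemma osc1 {n τ a b : ℝ} (hn : 0 < n) (hτ : |τ| ≤ n) (ha : 0 ≤ a) (hab : a ≤ b) :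
    ‖∫ u in a..b, e (ph n τ u)‖ ≤ 1 / n := by
  have hpi := Real.pi_gt_three
  have h := first_deriv hab (Y := n / 2) (by positivity) (ph n τ)
    (fun x => n * Real.exp x + τ / (2 * Real.pi)) (fun x => n * Real.exp x)
    (fun x _ => ph_d n τ x) (fun x _ => ph_dd n τ x) (by fun_prop) ?_ (Or.inl ?_)
  · refine h.trans ?_
    rw [div_le_div_iff₀ (by positivity) hn]
    nlinarith
  · intro x hx
    have hx0 : 0 ≤ x := ha.trans hx.1
    have h1 : 1 ≤ Real.exp x := Real.one_le_exp hx0
    have h2 : -(|τ| / (2 * Real.pi)) ≤ τ / (2 * Real.pi) := by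
      rw [← neg_div]
      exact div_le_div_of_nonneg_right (neg_abs_le τ) (by positivity)
    have h3 : |τ| / (2 * Real.pi) ≤ n / 2 := by
      rw [div_le_iff₀ (by positivity)]
      nlinarith [abs_nonneg τ]
    nlinarith
  · intro x _
    positivity

/-- (ii): to the right of `log (|τ| / (4 π n))`. -/
lemma osc2 {n τ a b : ℝ} (hn : 0 < n) (hτ : 0 < |τ|) (ha : |τ| / (4 * Real.pi) ≤ n * Real.exp a)
    (hab : a ≤ b) : ‖∫ u in a..b, e (ph n τ u)‖ ≤ 3 / Real.sqrt (|τ| / (4 * Real.pi)) := by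
  refine second_deriv hab (by positivity) (ph n τ)
    (fun x => n * Real.exp x + τ / (2 * Real.pi)) (fun x => n * Real.exp x)
    (fun x _ => ph_d n τ x) (fun x _ => ph_dd n τ x) (by fun_prop) ?_
  intro x hx
  exact ha.trans (mul_le_mul_of_nonneg_left (Real.exp_le_exp.mpr hx.1) hn.le)

/-- (iii): to the left of `log (|τ| / (4 π n))`. -/
lemma osc3 {n τ a b : ℝ} (hn : 0 < n) (hτ : 0 < |τ|) (hb : n * Real.exp b ≤ |τ| / (4 * Real.pi))
    (hab : a ≤ b) : ‖∫ u in a..b, e (ph n τ u)‖ ≤ 4 / |τ| := by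
  have hpi := Real.pi_pos
  have hbd : ‖∫ u in a..b, e (ph n τ u)‖ ≤ 1 / (Real.pi * (|τ| / (4 * Real.pi))) := by
    rcases lt_or_ge 0 τ with h | h
    · refine first_deriv hab (by positivity) (ph n τ)
        (fun x => n * Real.exp x + τ / (2 * Real.pi)) (fun x => n * Real.exp x)
        (fun x _ => ph_d n τ x) (fun x _ => ph_dd n τ x) (by fun_prop) ?_ (Or.inl ?_)
      · intro x _
        rw [abs_of_pos h]
        have h1 : 0 < n * Real.exp x := by positivity
        have h2 : τ / (4 * Real.pi) ≤ τ / (2 * Real.pi) := by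
          apply div_le_div_of_nonneg_left h.le (by positivity) (by linarith)
        linarith
      · intro x _; positivity
    · refine first_deriv_neg hab (by positivity) (ph n τ)
        (fun x => n * Real.exp x + τ / (2 * Real.pi)) (fun x => n * Real.exp x)
        (fun x _ => ph_d n τ x) (fun x _ => ph_dd n τ x) (by fun_prop) ?_ ?_
      · intro x hx
        have h1 : n * Real.exp x ≤ |τ| / (4 * Real.pi) :=
          (mul_le_mul_of_nonneg_left (Real.exp_le_exp.mpr hx.2) hn.le).trans hb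
        rw [abs_of_nonpos h] at h1 ⊢
        have h2 : τ / (2 * Real.pi) = -(2 * (-τ / (4 * Real.pi))) := by
          field_simp; ring
        rw [h2]
        linarith
      · intro x _; positivity
  refine hbd.trans (le_of_eq ?_)
  field_simp

/-- the change of variables `y = e^u` -/
lemma KK_eq (m : ℤ) (σ t : ℝ) : KK m (σ + t * Complex.I) =
    ∫ u in Ioi (0 : ℝ), (Real.exp (-σ * u) : ℂ) * e (-(m * Real.exp u + t / (2 * Real.pi) * u)) := by
  have himg : Real.exp '' Ioi (0 : ℝ) = Ioi 1 := by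
    ext y
    constructor
    · rintro ⟨x, hx, rfl⟩
      exact Real.one_lt_exp_iff.mpr hx
    · intro hy
      have hy1 : (1 : ℝ) < y := hy
      exact ⟨Real.log y, Real.log_pos hy1, Real.exp_log (by linarith)⟩
  unfold KK
  rw [← himg, integral_image_eq_integral_abs_deriv_smul measurableSet_Ioi
    (fun x _ => (Real.hasDerivAt_exp x).hasDerivWithinAt) Real.exp_injective.injOn]
  apply setIntegral_congr_fun measurableSet_Ioi
  intro u _
  simp only
  rw [abs_of_pos (Real.exp_pos u), Complex.real_smul]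
  unfold e
  rw [Complex.ofReal_exp, ← Complex.ofReal_exp,
    Complex.cpow_def_of_ne_zero (by exact_mod_cast (Real.exp_pos u).ne'), ← Complex.ofReal_log
      (Real.exp_pos u).le, Real.log_exp, Complex.ofReal_exp, Complex.ofReal_exp, ← Complex.exp_add,
    ← Complex.exp_add, ← Complex.exp_add]
  congr 1
  push_cast
  have hpi : (Real.pi : ℂ) ≠ 0 := by exact_mod_cast Real.pi_ne_zero
  field_simp
  ring

lemma int_exp {σ : ℝ} (hσ : 0 < σ) (A : ℝ → ℝ) (hA : Continuous A) :
    IntegrableOn (fun u : ℝ => (Real.exp (-σ * u) : ℂ) * e (A u)) (Ioi 0) := by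
  have h1 : IntegrableOn (fun u : ℝ => Real.exp (-σ * u)) (Ioi 0) :=
    exp_neg_integrableOn_Ioi 0 hσ
  refine Integrable.mono' h1 ?_ ?_
  · exact ((by fun_prop : Continuous fun u : ℝ => (Real.exp (-σ * u) : ℂ)).mul
      (e_continuous.comp hA)).aestronglyMeasurable
  · filter_upwards with u
    rw [norm_mul, e_norm, mul_one, Complex.norm_real, Real.norm_eq_abs, abs_of_pos (Real.exp_pos _)]

/-- The transfer of a bound for all finite intervals. -/
lemma tail_le {σ Q : ℝ} (hσ : 0 < σ) (A : ℝ → ℝ) (hA : Continuous A) (U₀ : ℝ)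
    (h : ∀ U : ℝ, U₀ ≤ U → ‖∫ u in (0 : ℝ)..U, (Real.exp (-σ * u) : ℂ) * e (A u)‖ ≤ Q) :
    ‖∫ u in Ioi (0 : ℝ), (Real.exp (-σ * u) : ℂ) * e (A u)‖ ≤ Q := by
  have h1 := intervalIntegral_tendsto_integral_Ioi 0 (int_exp hσ A hA) tendsto_id
  refine le_of_tendsto h1.norm ?_
  filter_upwards [eventually_ge_atTop U₀] with U hU
  exact h U hU

/-- reduction to positive `m` -/
lemma red (m : ℤ) (hm : m ≠ 0) (t : ℝ) : ∃ τ : ℝ, |τ| = |t| ∧ ∀ a b : ℝ,
    ‖∫ u in a..b, e (-(m * Real.exp u + t / (2 * Real.pi) * u))‖ =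
      ‖∫ u in a..b, e (ph |(m : ℝ)| τ u)‖ := by
  rcases lt_or_gt_of_ne hm with h | h
  · refine ⟨-t, abs_neg t, fun a b => ?_⟩
    have hm0 : ((m : ℝ)) < 0 := by exact_mod_cast h
    congr 2
    funext u
    unfold ph
    rw [abs_of_neg hm0]
    congr 1
    ring
  · refine ⟨t, rfl, fun a b => ?_⟩
    have hm0 : (0 : ℝ) < m := by exact_mod_cast h
    rw [norm_int_neg (fun u => -(m * Real.exp u + t / (2 * Real.pi) * u))]
    congr 2
    funext u
    unfold ph
    rw [abs_of_pos hm0, neg_neg]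

theorem t_KB : S_KB := by
  intro σ hσ hσ2
  set C₂ : ℝ := (4 * Real.pi) ^ σ * (3 * Real.sqrt (4 * Real.pi)) with hC₂
  refine ⟨4 + C₂, by positivity, ?_⟩
  intro m t hm ht
  have hmR : 0 < |(m : ℝ)| := abs_pos.mpr (by exact_mod_cast hm)
  have ht0 : 0 < |t| := by linarith
  obtain ⟨τ, hτ, hred⟩ := red m hm t
  set n : ℝ := |(m : ℝ)| with hn
  set A : ℝ → ℝ := fun u => -(m * Real.exp u + t / (2 * Real.pi) * u) with hAdef
  have hA : Continuous A := by simp only [hAdef]; fun_prop
  have hfc : Continuous (fun u => e (A u)) := e_continuous.comp hA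
  have hwf : Continuous (fun u : ℝ => (Real.exp (-σ * u) : ℂ) * e (A u)) :=
    (by fun_prop : Continuous fun u : ℝ => (Real.exp (-σ * u) : ℂ)).mul hfc
  have hC₂0 : 0 ≤ C₂ := by positivity
  rw [KK_eq]
  constructor
  · intro hmt
    -- the point of division
    set u₁ : ℝ := Real.log (|t| / (4 * Real.pi * n)) with hu₁
    set v : ℝ := max 0 u₁ with hv
    have hpos : 0 < |t| / (4 * Real.pi * n) := by positivity
    have hexp1 : n * Real.exp u₁ = |t| / (4 * Real.pi) := by
      rw [hu₁, Real.exp_log hpos]; field_simp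
    have hratio : 0 < n / |t| := by positivity
    -- the target
    have hr1 : |t| ^ (-(1 : ℝ)) ≤ (n / |t|) ^ σ * |t| ^ (-(1 / 2) : ℝ) := by
      have h1 : (1 / |t|) ^ σ ≤ (n / |t|) ^ σ := by
        apply Real.rpow_le_rpow (by positivity) _ hσ.le
        apply div_le_div_of_nonneg_right _ ht0.le
        have : (1 : ℤ) ≤ |m| := Int.one_le_abs hm
        rw [hn]
        exact_mod_cast this
      have h2 : |t| ^ (-(1 / 2) : ℝ) ≤ (1 / |t|) ^ σ := by
        rw [show (1 : ℝ) / |t| = |t|⁻¹ from one_div _, Real.inv_rpow ht0.le,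
          ← Real.rpow_neg ht0.le]
        exact Real.rpow_le_rpow_of_exponent_le ht (by linarith)
      calc |t| ^ (-(1 : ℝ)) = |t| ^ (-(1 / 2) : ℝ) * |t| ^ (-(1 / 2) : ℝ) := by
            rw [← Real.rpow_add ht0]; norm_num
        _ ≤ (n / |t|) ^ σ * |t| ^ (-(1 / 2) : ℝ) :=
            mul_le_mul_of_nonneg_right (h2.trans h1) (by positivity)
    have hlow : ∀ a b : ℝ, a ≤ b → b ≤ v → 0 ≤ a →
        ‖∫ u in a..b, e (A u)‖ ≤ 4 / |t| := by
      intro a b hab hbv ha
      rw [hred a b, ← hτ]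
      rcases le_or_gt u₁ 0 with h | h
      · have hv0 : v = 0 := max_eq_left h
        have : a = b := by linarith
        rw [this, intervalIntegral.integral_same, norm_zero]
        positivity
      · have hv1 : v = u₁ := max_eq_right h.le
        refine osc3 hmR (by rw [hτ]; exact ht0) ?_ hab
        rw [hτ, ← hexp1]
        exact mul_le_mul_of_nonneg_left (Real.exp_le_exp.mpr (by linarith)) hmR.le
    have hhigh : ∀ b : ℝ, v ≤ b → ‖∫ u in v..b, e (A u)‖ ≤ 3 / Real.sqrt (|t| / (4 * Real.pi)) := by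
      intro b hb
      rw [hred v b, ← hτ]
      refine osc2 hmR (by rw [hτ]; exact ht0) ?_ hb
      rw [hτ, ← hexp1]
      exact mul_le_mul_of_nonneg_left (Real.exp_le_exp.mpr (le_max_right _ _)) hmR.le
    refine tail_le hσ A hA v ?_
    intro U hU
    have hv0 : 0 ≤ v := le_max_left _ _
    rw [← intervalIntegral.integral_add_adjacent_intervals (hwf.intervalIntegrable 0 v)
      (hwf.intervalIntegrable v U)]
    have h1 := amp hv0 hσ (fun u => e (A u)) hfc (Q := 4 / |t|)
      (fun x hx => hlow 0 x hx.1 hx.2 le_rfl)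
    have h2 := amp hU hσ (fun u => e (A u)) hfc (Q := 3 / Real.sqrt (|t| / (4 * Real.pi)))
      (fun x hx => hhigh x hx.1)
    rw [mul_zero, Real.exp_zero, one_mul] at h1
    have h3 : Real.exp (-σ * v) ≤ (4 * Real.pi) ^ σ * (n / |t|) ^ σ := by
      calc Real.exp (-σ * v) ≤ Real.exp (-σ * u₁) := by
            apply Real.exp_le_exp.mpr
            have := le_max_right 0 u₁
            nlinarith
        _ = (|t| / (4 * Real.pi * n)) ^ (-σ) := by
            rw [Real.rpow_def_of_pos hpos, ← hu₁]; congr 1; ring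
        _ = (4 * Real.pi) ^ σ * (n / |t|) ^ σ := by
            rw [Real.rpow_neg hpos.le, ← Real.inv_rpow hpos.le, inv_div,
              ← Real.mul_rpow (by positivity) hratio.le]
            congr 1; ring
    have h4 : 3 / Real.sqrt (|t| / (4 * Real.pi)) =
        3 * Real.sqrt (4 * Real.pi) * |t| ^ (-(1 / 2) : ℝ) := by
      rw [Real.sqrt_div ht0.le, Real.rpow_neg ht0.le, ← Real.sqrt_eq_rpow]
      field_simp
    have h5 : 4 / |t| = 4 * |t| ^ (-(1 : ℝ)) := by
      rw [Real.rpow_neg_one]; ring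
    calc _ ≤ 4 / |t| + Real.exp (-σ * v) * (3 / Real.sqrt (|t| / (4 * Real.pi))) :=
          (norm_add_le _ _).trans (add_le_add h1 h2)
      _ ≤ 4 * ((n / |t|) ^ σ * |t| ^ (-(1 / 2) : ℝ)) +
          ((4 * Real.pi) ^ σ * (n / |t|) ^ σ) * (3 * Real.sqrt (4 * Real.pi) * |t| ^ (-(1 / 2) : ℝ)) := by
          rw [h4, h5]
          apply add_le_add
          · exact mul_le_mul_of_nonneg_left hr1 (by norm_num)
          · exact mul_le_mul_of_nonneg_right h3 (by positivity)
      _ = (4 + C₂) * (n / |t|) ^ σ * |t| ^ (-(1 / 2) : ℝ) := by rw [hC₂]; ring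
  · intro htm
    refine tail_le hσ A hA 0 ?_
    intro U hU
    have h1 := amp hU hσ (fun u => e (A u)) hfc (Q := 1 / n)
      (fun x hx => by
        rw [hred 0 x]
        exact osc1 hmR (by rw [hτ]; exact htm) le_rfl hx.1)
    rw [mul_zero, Real.exp_zero, one_mul] at h1
    refine h1.trans ?_
    apply div_le_div_of_nonneg_right _ hmR.le
    linarith

end Pool.Agent.J4H30.GS
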