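import Pool.Agent.J4H30.GS.Av

/-!
# From Gaussian averages to pointwise bounds, for the error term of a monotone function
-/

set_option autoImplicit false

open Filter Topology MeasureTheory Set Polynomial

namespace Pool.Agent.J4H30.GS

open Pool.Agent.J4H45.GS

lemma gI (β v : ℝ) (hβ : 0 < β) : Integrable (fun u : ℝ => Real.exp (-(v - u) ^ 2 / β)) ∧
    ∫ u : ℝ, Real.exp (-(v - u) ^ 2 / β) = Real.sqrt (Real.pi * β) := by
  have h0 : Integrable (fun u : ℝ => Real.exp (-(1 / β) * u ^ 2)) :=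
    integrable_exp_neg_mul_sq (by positivity)
  have e : (fun u : ℝ => Real.exp (-(v - u) ^ 2 / β)) =
      fun u => (fun y => Real.exp (-(1 / β) * y ^ 2)) (v - u) := by
    funext u
    simp only
    congr 1
    field_simp
  rw [e]
  refine ⟨h0.comp_sub_left v, ?_⟩
  rw [integral_sub_left_eq_self (fun y => Real.exp (-(1 / β) * y ^ 2)) volume v, integral_gaussian]
  congr 1
  field_simp

theorem gauss_dom {D : ℝ → ℝ} (hD : Measurable D) {A b : ℝ} (hA : 0 ≤ A) (hb : 0 ≤ b)
    (hbd : ∀ u, |D u| ≤ A * Real.exp (b * |u|)) {v v' h ε R : ℝ} (hv : 0 ≤ v) (hh : 0 ≤ h)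
    (hε : 0 < ε) (hR0 : 0 ≤ R) (hv' : |v'| ≤ v + h / 2)
    (hR : ∀ u, |u - v'| ≤ h / 2 → D v - D u ≤ R) :
    D v ≤ (∫ u : ℝ, D u * Real.exp (-(v' - u) ^ 2 / (4 * ε))) / Real.sqrt (Real.pi * (4 * ε)) + R +
      4 * A * Real.exp (b * (v + h) + 4 * b ^ 2 * ε - h ^ 2 / (32 * ε)) := by
  set N : ℝ := Real.sqrt (Real.pi * (4 * ε)) with hN
  have hN0 : 0 < N := Real.sqrt_pos.mpr (by positivity)
  set T : ℝ := 2 * A * Real.exp (b * (v + h) + 4 * b ^ 2 * ε - h ^ 2 / (32 * ε)) with hT
  have hT0 : 0 ≤ T := by positivity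
  set φ : ℝ → ℝ := fun u => Real.exp (-(v' - u) ^ 2 / (4 * ε)) with hφ
  set ψ : ℝ → ℝ := fun u => Real.exp (-(v' - u) ^ 2 / (16 * ε)) with hψ
  have hφ0 : ∀ u, 0 < φ u := fun u => Real.exp_pos _
  have hψ0 : ∀ u, 0 < ψ u := fun u => Real.exp_pos _
  obtain ⟨iφ, vφ⟩ := gI (4 * ε) v' (by positivity)
  obtain ⟨iψ, vψ⟩ := gI (16 * ε) v' (by positivity)
  obtain ⟨i8, -⟩ := gI (8 * ε) v' (by positivity)
  have hψN : Real.sqrt (Real.pi * (16 * ε)) = 2 * N := by
    rw [hN, show Real.pi * (16 * ε) = 2 ^ 2 * (Real.pi * (4 * ε)) by ring,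
      Real.sqrt_mul (by positivity), Real.sqrt_sq (by norm_num)]
  have hcs : ∀ y : ℝ, b * |y| ≤ y ^ 2 / (16 * ε) + 4 * b ^ 2 * ε := by
    intro y
    have h1 : 0 ≤ (|y| - 8 * b * ε) ^ 2 / (16 * ε) := by positivity
    have h2 : (|y| - 8 * b * ε) ^ 2 / (16 * ε) = y ^ 2 / (16 * ε) + 4 * b ^ 2 * ε - b * |y| := by
      rw [sub_sq, sq_abs]
      field_simp
      ring
    linarith
  have hpt : ∀ u, D v * φ u ≤ D u * φ u + R * φ u + T * ψ u := by
    intro u
    by_cases hu : |u - v'| ≤ h / 2
    · have h1 := mul_le_mul_of_nonneg_right (hR u hu) (hφ0 u).le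
      have h2 : 0 ≤ T * ψ u := mul_nonneg hT0 (hψ0 u).le
      nlinarith
    · rw [not_le] at hu
      set y : ℝ := u - v' with hy
      have hyy : (v' - u) ^ 2 = y ^ 2 := by rw [hy]; ring
      have h1 : |D v| ≤ A * Real.exp (b * (v + h) + b * |y|) := by
        refine (hbd v).trans (mul_le_mul_of_nonneg_left (Real.exp_le_exp.2 ?_) hA)
        rw [abs_of_nonneg hv]
        have : 0 ≤ b * |y| := by positivity
        nlinarith
      have h2 : |D u| ≤ A * Real.exp (b * (v + h) + b * |y|) := by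
        refine (hbd u).trans (mul_le_mul_of_nonneg_left (Real.exp_le_exp.2 ?_) hA)
        have h3 : |u| ≤ (v + h) + |y| := by
          have h4 : |u| ≤ |v'| + |u - v'| := by
            have := abs_add_le v' (u - v')
            rwa [add_sub_cancel] at this
          linarith
        nlinarith
      have h3 : φ u * Real.exp (b * (v + h) + b * |y|) ≤
          Real.exp (b * (v + h) + 4 * b ^ 2 * ε - h ^ 2 / (32 * ε)) * ψ u := by
        simp only [hφ, hψ]
        rw [← Real.exp_add, ← Real.exp_add, hyy]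
        apply Real.exp_le_exp.2
        have h4 := hcs y
        have h5 : h ^ 2 / (32 * ε) ≤ y ^ 2 / (8 * ε) := by
          have h6 : h ^ 2 / 4 ≤ y ^ 2 := by
            have h7 : (h / 2) ^ 2 ≤ |y| ^ 2 := pow_le_pow_left₀ (by positivity) hu.le 2
            rw [sq_abs] at h7
            linarith
          rw [div_le_div_iff₀ (by positivity) (by positivity)]
          nlinarith
        have e1 : -y ^ 2 / (4 * ε) = -(y ^ 2 / (16 * ε)) - y ^ 2 / (8 * ε) - y ^ 2 / (16 * ε) := by
          field_simp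
          ring
        have e2 : -y ^ 2 / (16 * ε) = -(y ^ 2 / (16 * ε)) := by ring
        rw [e1, e2]
        linarith
      have h4 : (D v - D u) * φ u ≤ T * ψ u := by
        have h5 : D v - D u ≤ 2 * A * Real.exp (b * (v + h) + b * |y|) := by
          have := le_abs_self (D v)
          have := neg_abs_le (D u)
          linarith
        calc (D v - D u) * φ u ≤ 2 * A * Real.exp (b * (v + h) + b * |y|) * φ u :=
              mul_le_mul_of_nonneg_right h5 (hφ0 u).le
          _ = 2 * A * (φ u * Real.exp (b * (v + h) + b * |y|)) := by ring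
          _ ≤ 2 * A * (Real.exp (b * (v + h) + 4 * b ^ 2 * ε - h ^ 2 / (32 * ε)) * ψ u) :=
              mul_le_mul_of_nonneg_left h3 (by positivity)
          _ = T * ψ u := by rw [hT]; ring
      have h5 : 0 ≤ R * φ u := mul_nonneg hR0 (hφ0 u).le
      nlinarith
  have iD : Integrable (fun u => D u * φ u) := by
    refine Integrable.mono' (i8.const_mul (A * Real.exp (b * |v'| + 4 * b ^ 2 * ε))) ?_ ?_
    · have hm : Measurable φ := by simp only [hφ]; fun_prop
      exact (hD.mul hm).aestronglyMeasurable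
    · refine Eventually.of_forall fun u => ?_
      rw [Real.norm_eq_abs, abs_mul, abs_of_pos (hφ0 u)]
      have h1 : |u| ≤ |v'| + |u - v'| := by
        have := abs_add_le v' (u - v')
        rwa [add_sub_cancel] at this
      have h2 := hcs (u - v')
      have hyy : (v' - u) ^ 2 = (u - v') ^ 2 := by ring
      calc |D u| * φ u ≤ A * Real.exp (b * |u|) * φ u :=
            mul_le_mul_of_nonneg_right (hbd u) (hφ0 u).le
        _ = A * Real.exp (b * |u| + -(v' - u) ^ 2 / (4 * ε)) := by
            simp only [hφ]; rw [mul_assoc, ← Real.exp_add]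
        _ ≤ A * Real.exp (b * |v'| + 4 * b ^ 2 * ε + -(v' - u) ^ 2 / (8 * ε)) := by
            refine mul_le_mul_of_nonneg_left (Real.exp_le_exp.2 ?_) hA
            rw [hyy]
            have e1 : -(u - v') ^ 2 / (4 * ε) = -((u - v') ^ 2 / (16 * ε)) -
                (u - v') ^ 2 / (16 * ε) + -(u - v') ^ 2 / (8 * ε) := by
              field_simp; ring
            have h3 : 0 ≤ (u - v') ^ 2 / (16 * ε) := by positivity
            have h4 : b * |u| ≤ b * |v'| + b * |u - v'| := by nlinarith
            rw [e1]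
            linarith
        _ = A * Real.exp (b * |v'| + 4 * b ^ 2 * ε) * Real.exp (-(v' - u) ^ 2 / (8 * ε)) := by
            rw [mul_assoc A, ← Real.exp_add]
  have hint : D v * N ≤ (∫ u, D u * φ u) + R * N + T * (2 * N) := by
    have h1 : ∫ u, D v * φ u ≤ ∫ u, (D u * φ u + R * φ u + T * ψ u) :=
      integral_mono (iφ.const_mul _) ((iD.add (iφ.const_mul _)).add (iψ.const_mul _)) hpt
    have h2 : ∫ u, (D u * φ u + R * φ u + T * ψ u) =
        (∫ u, (D u * φ u + R * φ u)) + ∫ u, T * ψ u :=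
      integral_add (f := fun u => D u * φ u + R * φ u) (g := fun u => T * ψ u)
        (iD.add (iφ.const_mul _)) (iψ.const_mul _)
    have h3 : ∫ u, (D u * φ u + R * φ u) = (∫ u, D u * φ u) + ∫ u, R * φ u :=
      integral_add (f := fun u => D u * φ u) (g := fun u => R * φ u) iD (iφ.const_mul _)
    rw [h2, h3, integral_const_mul, integral_const_mul, integral_const_mul, vφ, vψ, hψN] at h1
    exact h1
  have h2 : D v ≤ ((∫ u, D u * φ u) + R * N + T * (2 * N)) / N := by
    rwa [le_div_iff₀ hN0]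
  have h3 : ((∫ u, D u * φ u) + R * N + T * (2 * N)) / N = (∫ u, D u * φ u) / N + R + 2 * T := by
    field_simp
  rw [h3] at h2
  have h4 : 2 * T = 4 * A * Real.exp (b * (v + h) + 4 * b ^ 2 * ε - h ^ 2 / (32 * ε)) := by
    rw [hT]; ring
  rw [h4] at h2
  exact h2

lemma poly_bd (p : ℝ[X]) {δ : ℝ} (hδ : 0 < δ) : ∃ C : ℝ, 0 ≤ C ∧ ∀ u : ℝ, 0 ≤ u →
    |p.eval u| ≤ C * Real.exp (δ * u) := by
  refine ⟨∑ i ∈ Finset.range (p.natDegree + 1), |p.coeff i| * (i.factorial / δ ^ i),
    Finset.sum_nonneg fun i _ => by positivity, fun u hu => ?_⟩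
  rw [Polynomial.eval_eq_sum_range, Finset.sum_mul]
  refine (Finset.abs_sum_le_sum_abs _ _).trans (Finset.sum_le_sum fun i _ => ?_)
  rw [abs_mul, mul_assoc]
  refine mul_le_mul_of_nonneg_left ?_ (abs_nonneg _)
  rw [abs_of_nonneg (by positivity)]
  have h := Real.pow_div_factorial_le_exp (δ * u) (by positivity) i
  rw [div_le_iff₀ (by positivity), mul_pow] at h
  rw [div_mul_eq_mul_div, le_div_iff₀ (by positivity)]
  nlinarith

lemma M_lip (Q : ℝ[X]) {δ : ℝ} (hδ : 0 < δ) : ∃ C : ℝ, 0 ≤ C ∧ ∀ x y T : ℝ, 0 ≤ x → 0 ≤ y → x ≤ T → y ≤ T →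
    |Real.exp x * Q.eval x - Real.exp y * Q.eval y| ≤ C * |x - y| * Real.exp ((1 + δ) * T) := by
  obtain ⟨C, hC, h⟩ := poly_bd (Q + derivative Q) hδ
  refine ⟨C, hC, fun x y T hx hy hxT hyT => ?_⟩
  have hder : ∀ z ∈ Icc 0 T, HasDerivWithinAt (fun z => Real.exp z * Q.eval z)
      (Real.exp z * (Q + derivative Q).eval z) (Icc 0 T) z := by
    intro z _
    have h1 := (Real.hasDerivAt_exp z).fun_mul (Q.hasDerivAt z)
    have e1 : Real.exp z * eval z Q + Real.exp z * eval z (derivative Q) =
        Real.exp z * (Q + derivative Q).eval z := by rw [eval_add]; ring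
    rw [e1] at h1
    exact h1.hasDerivWithinAt
  have hb : ∀ z ∈ Icc 0 T, ‖Real.exp z * (Q + derivative Q).eval z‖ ≤ C * Real.exp ((1 + δ) * T) := by
    intro z hz
    rw [norm_mul, Real.norm_eq_abs, Real.norm_eq_abs, abs_of_pos (Real.exp_pos _)]
    calc Real.exp z * |(Q + derivative Q).eval z| ≤ Real.exp z * (C * Real.exp (δ * z)) :=
          mul_le_mul_of_nonneg_left (h z hz.1) (Real.exp_pos _).le
      _ = C * Real.exp ((1 + δ) * z) := by
          rw [mul_left_comm, ← Real.exp_add]; ring_nf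
      _ ≤ C * Real.exp ((1 + δ) * T) := by
          refine mul_le_mul_of_nonneg_left (Real.exp_le_exp.2 ?_) hC
          nlinarith [hz.2]
  have h2 := (convex_Icc 0 T).norm_image_sub_le_of_norm_hasDerivWithin_le hder hb
    (⟨hy, hyT⟩ : y ∈ Icc 0 T) (⟨hx, hxT⟩ : x ∈ Icc 0 T)
  rw [Real.norm_eq_abs, Real.norm_eq_abs] at h2
  refine h2.trans (le_of_eq ?_)
  ring

/-- The pointwise bound. -/
theorem mono_pt {f : ℝ → ℝ} (hf : Monotone f) {P : ℂ[X]} {Q : ℝ[X]}
    (hQ : ∀ u : ℝ, Q.eval u = (P.eval (u : ℂ)).re) {g : ℝ → ℂ}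
    (hg : ∀ u : ℝ, 0 ≤ u → g u = (f u : ℂ) - (Real.exp u : ℂ) * P.eval (u : ℂ))
    {G : ℂ → ℂ} {σ c b A C : ℝ} {m : ℕ} (H : Dat g G σ c b A C m) (hb : 0 < b) (hσ : σ ≤ 1 / 2)
    {κ : ℝ} (hκ : 0 < κ) (hκ2 : κ ≤ 1)
    (hB : Integrable (fun y : ℝ => ‖G (σ + y * Complex.I)‖ * (1 + |y|) ^ (-κ))) :
    ∃ K : ℝ, ∀ v : ℝ, 0 ≤ v → |f v - Real.exp v * Q.eval v| ≤ K * Real.exp ((1 / 2 + κ) * v) := by
  obtain ⟨K, hK, hav⟩ := avb H hκ.le (by linarith) hB
  obtain ⟨CM, hCM, hM⟩ := M_lip Q (show 0 < κ / 4 by positivity)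
  have hA := A_nonneg H
  set D : ℝ → ℝ := fun u => (g u).re with hD
  have hDm : Measurable D := Complex.measurable_re.comp H.meas
  have hDbd : ∀ u, |D u| ≤ A * Real.exp (b * |u|) := by
    intro u
    rcases lt_or_ge u 0 with h | h
    · simp only [hD]
      rw [H.neg u h]
      simp only [Complex.zero_re, abs_zero]
      positivity
    · rw [abs_of_nonneg h]
      exact (Complex.abs_re_le_norm _).trans (H.bd u h)
  have hDv : ∀ u, 0 ≤ u → D u = f u - Real.exp u * Q.eval u := by
    intro u hu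
    simp only [hD]
    rw [hg u hu, Complex.sub_re, Complex.ofReal_re, Complex.re_ofReal_mul, hQ u]
  -- the constants
  set Ch : ℝ := Real.sqrt (64 * b / κ) with hCh
  have hCh0 : 0 ≤ Ch := Real.sqrt_nonneg _
  set C1 : ℝ := CM * Ch * Real.exp ((1 + κ / 4) * Ch) with hC1
  set C2 : ℝ := 4 * A * Real.exp (b * Ch + 4 * b ^ 2) with hC2
  set C3 : ℝ := K * Real.exp (σ * Ch) with hC3
  set C4 : ℝ := A * Real.exp (b * Ch) with hC4
  have hC10 : 0 ≤ C1 := by positivity
  have hC20 : 0 ≤ C2 := by positivity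
  have hC30 : 0 ≤ C3 := by positivity
  have hC40 : 0 ≤ C4 := by positivity
  refine ⟨C1 + C2 + C3 + C4, fun v hv => ?_⟩
  have hE1 : 1 ≤ Real.exp ((1 / 2 + κ) * v) := Real.one_le_exp (by positivity)
  set h : ℝ := Real.sqrt (32 * b * v * Real.exp (-v)) with hh
  have hh0 : 0 ≤ h := Real.sqrt_nonneg _
  have hhsq : h ^ 2 = 32 * b * v * Real.exp (-v) := Real.sq_sqrt (by positivity)
  have hhle : h ≤ Ch * Real.exp (-(1 / 2 - κ / 4) * v) := by
    rw [hh, hCh]
    apply Real.sqrt_le_iff.mpr
    refine ⟨by positivity, ?_⟩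
    rw [mul_pow, Real.sq_sqrt (by positivity), ← Real.exp_nat_mul]
    have h1 : v ≤ 2 / κ * Real.exp (κ / 2 * v) := by
      have h2 := Real.add_one_le_exp (κ / 2 * v)
      rw [div_mul_eq_mul_div, le_div_iff₀ hκ]
      nlinarith
    calc 32 * b * v * Real.exp (-v) ≤ 32 * b * (2 / κ * Real.exp (κ / 2 * v)) * Real.exp (-v) := by
          gcongr
      _ = 64 * b / κ * Real.exp (((2 : ℕ) : ℝ) * (-(1 / 2 - κ / 4) * v)) := by
          rw [show 32 * b * (2 / κ * Real.exp (κ / 2 * v)) * Real.exp (-v) =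
            64 * b / κ * (Real.exp (κ / 2 * v) * Real.exp (-v)) by ring, ← Real.exp_add]
          congr 2
          push_cast
          ring
  have hhCh : h ≤ Ch := by
    refine hhle.trans (mul_le_of_le_one_right hCh0 ?_)
    apply Real.exp_le_one_iff.mpr
    nlinarith
  set ε : ℝ := Real.exp (-v) with hεd
  have hε : 0 < ε := Real.exp_pos _
  have hε1 : ε ≤ 1 := Real.exp_le_one_iff.mpr (by linarith)
  have hhe : h ^ 2 / (32 * ε) = b * v := by
    rw [hhsq]; field_simp
  -- the range of the main term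
  set R : ℝ := CM * h * Real.exp ((1 + κ / 4) * (v + h)) with hR
  have hR0 : 0 ≤ R := by positivity
  have hRle : R ≤ C1 * Real.exp ((1 / 2 + κ) * v) := by
    calc R = CM * h * (Real.exp ((1 + κ / 4) * v) * Real.exp ((1 + κ / 4) * h)) := by
          rw [hR, ← Real.exp_add]; ring_nf
      _ ≤ CM * (Ch * Real.exp (-(1 / 2 - κ / 4) * v)) *
          (Real.exp ((1 + κ / 4) * v) * Real.exp ((1 + κ / 4) * Ch)) := by gcongr
      _ = C1 * (Real.exp (-(1 / 2 - κ / 4) * v) * Real.exp ((1 + κ / 4) * v)) := by rw [hC1]; ring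
      _ ≤ C1 * Real.exp ((1 / 2 + κ) * v) := by
          refine mul_le_mul_of_nonneg_left ?_ hC10
          rw [← Real.exp_add]
          apply Real.exp_le_exp.2
          nlinarith
  have htail : 4 * A * Real.exp (b * (v + h) + 4 * b ^ 2 * ε - h ^ 2 / (32 * ε)) ≤
      C2 * Real.exp ((1 / 2 + κ) * v) := by
    calc 4 * A * Real.exp (b * (v + h) + 4 * b ^ 2 * ε - h ^ 2 / (32 * ε)) ≤ C2 := by
          rw [hC2, hhe]
          refine mul_le_mul_of_nonneg_left (Real.exp_le_exp.2 ?_) (by positivity)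
          have h1 : b * h ≤ b * Ch := mul_le_mul_of_nonneg_left hhCh hb.le
          have h2 : 4 * b ^ 2 * ε ≤ 4 * b ^ 2 := mul_le_of_le_one_right (by positivity) hε1
          nlinarith
      _ ≤ C2 * Real.exp ((1 / 2 + κ) * v) := le_mul_of_one_le_right hC20 hE1
  -- the averages
  have havg : ∀ v' : ℝ, v' ≤ v + h / 2 →
      |(∫ u : ℝ, D u * Real.exp (-(v' - u) ^ 2 / (4 * ε))) / Real.sqrt (Real.pi * (4 * ε))| ≤
        C3 * Real.exp ((1 / 2 + κ) * v) := by
    intro v' hv'
    have h1 := hav v' ε hε hε1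
    set I : ℝ := ∫ u : ℝ, D u * Real.exp (-(v' - u) ^ 2 / (4 * ε)) with hI
    have hre : |I| ≤ ‖phi g ε v'‖ := by
      have h2 : I = (phi g ε v').re := by
        unfold phi
        rw [hI]
        have h3 : Integrable (fun u : ℝ => g u * ((Real.exp (-(v' - u) ^ 2 / (4 * ε)) : ℝ) : ℂ)) := by
          obtain ⟨i8, -⟩ := gI (8 * ε) v' (by positivity)
          refine Integrable.mono' (i8.const_mul (A * Real.exp (b * |v'| + 4 * b ^ 2 * ε))) ?_ ?_
          · have hm : Measurable (fun u : ℝ => ((Real.exp (-(v' - u) ^ 2 / (4 * ε)) : ℝ) : ℂ)) := by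
              fun_prop
            exact (H.meas.mul hm).aestronglyMeasurable
          · refine Eventually.of_forall fun u => ?_
            rw [norm_mul, Complex.norm_real, Real.norm_eq_abs, abs_of_pos (Real.exp_pos _)]
            have h1 : |u| ≤ |v'| + |u - v'| := by
              have := abs_add_le v' (u - v')
              rwa [add_sub_cancel] at this
            have hgu : ‖g u‖ ≤ A * Real.exp (b * |u|) := by
              rcases lt_or_ge u 0 with h | h
              · rw [H.neg u h, norm_zero]; positivity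
              · rw [abs_of_nonneg h]; exact H.bd u h
            have hyy : (v' - u) ^ 2 = (u - v') ^ 2 := by ring
            have hcs : b * |u - v'| ≤ (u - v') ^ 2 / (16 * ε) + 4 * b ^ 2 * ε := by
              have h1 : 0 ≤ (|u - v'| - 8 * b * ε) ^ 2 / (16 * ε) := by positivity
              have h2 : (|u - v'| - 8 * b * ε) ^ 2 / (16 * ε) =
                  (u - v') ^ 2 / (16 * ε) + 4 * b ^ 2 * ε - b * |u - v'| := by
                rw [sub_sq, sq_abs]
                field_simp
                ring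
              linarith
            calc ‖g u‖ * Real.exp (-(v' - u) ^ 2 / (4 * ε))
                ≤ A * Real.exp (b * |u|) * Real.exp (-(v' - u) ^ 2 / (4 * ε)) :=
                  mul_le_mul_of_nonneg_right hgu (Real.exp_pos _).le
              _ = A * Real.exp (b * |u| + -(v' - u) ^ 2 / (4 * ε)) := by
                  rw [mul_assoc, ← Real.exp_add]
              _ ≤ A * Real.exp (b * |v'| + 4 * b ^ 2 * ε + -(v' - u) ^ 2 / (8 * ε)) := by
                  refine mul_le_mul_of_nonneg_left (Real.exp_le_exp.2 ?_) hA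
                  rw [hyy]
                  have e1 : -(u - v') ^ 2 / (4 * ε) = -((u - v') ^ 2 / (16 * ε)) -
                      (u - v') ^ 2 / (16 * ε) + -(u - v') ^ 2 / (8 * ε) := by
                    field_simp; ring
                  have h3 : 0 ≤ (u - v') ^ 2 / (16 * ε) := by positivity
                  have h4 : b * |u| ≤ b * |v'| + b * |u - v'| := by nlinarith
                  rw [e1]
                  linarith
              _ = A * Real.exp (b * |v'| + 4 * b ^ 2 * ε) * Real.exp (-(v' - u) ^ 2 / (8 * ε)) := by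
                  rw [mul_assoc A, ← Real.exp_add]
        have h4 := integral_re h3
        simp only [RCLike.re_to_complex] at h4
        rw [← h4]
        apply integral_congr_ae
        refine Eventually.of_forall fun u => ?_
        simp only [hD]
        rw [Complex.re_mul_ofReal]
      rw [h2]
      exact Complex.abs_re_le_norm _
    have hsq : Real.sqrt (Real.pi / ε) * Real.sqrt (Real.pi * (4 * ε)) = 2 * Real.pi := by
      rw [← Real.sqrt_mul (by positivity)]
      rw [show Real.pi / ε * (Real.pi * (4 * ε)) = (2 * Real.pi) ^ 2 by field_simp; ring,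
        Real.sqrt_sq (by positivity)]
    rw [norm_mul, Complex.norm_real, Real.norm_eq_abs, abs_of_nonneg (Real.sqrt_nonneg _)] at h1
    have hN0 : 0 < Real.sqrt (Real.pi * (4 * ε)) := Real.sqrt_pos.mpr (by positivity)
    have hS0 : 0 < Real.sqrt (Real.pi / ε) := Real.sqrt_pos.mpr (by positivity)
    have hεκ : ε ^ (-(κ / 2)) = Real.exp (κ / 2 * v) := by
      rw [hεd, ← Real.exp_mul]; ring_nf
    rw [abs_div, abs_of_pos hN0]
    calc |I| / Real.sqrt (Real.pi * (4 * ε)) ≤ ‖phi g ε v'‖ / Real.sqrt (Real.pi * (4 * ε)) := by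
          gcongr
      _ = (Real.sqrt (Real.pi / ε) * ‖phi g ε v'‖) / (2 * Real.pi) := by
          rw [← hsq]; field_simp
      _ ≤ (K * Real.exp (σ * v') * ε ^ (-(κ / 2))) / (2 * Real.pi) := by gcongr
      _ ≤ K * Real.exp (σ * v') * ε ^ (-(κ / 2)) := by
          apply div_le_self (by positivity)
          have := Real.pi_gt_three
          linarith
      _ ≤ C3 * Real.exp ((1 / 2 + κ) * v) := by
          rw [hεκ, hC3, mul_assoc, mul_assoc]
          refine mul_le_mul_of_nonneg_left ?_ hK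
          rw [← Real.exp_add, ← Real.exp_add]
          apply Real.exp_le_exp.2
          have h2 : σ * v' ≤ σ * (v + Ch) := mul_le_mul_of_nonneg_left (by linarith) H.s0.le
          nlinarith
  have hhigh : C4 ≤ C4 * Real.exp ((1 / 2 + κ) * v) := le_mul_of_one_le_right hC40 hE1
  rw [← hDv v hv]
  rcases le_or_gt v Ch with hvC | hvC
  · have h1 : |D v| ≤ C4 := by
      refine (hDbd v).trans (mul_le_mul_of_nonneg_left (Real.exp_le_exp.2 ?_) hA)
      rw [abs_of_nonneg hv]
      exact mul_le_mul_of_nonneg_left hvC hb.le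
    nlinarith
  · rw [abs_le]
    constructor
    · -- the lower bound
      have h1 := gauss_dom (D := fun u => -D u) hDm.neg hA hb.le (fun u => by
        rw [abs_neg]; exact hDbd u) (v := v) (v' := v - h / 2) (h := h) (ε := ε) (R := R) hv hh0 hε
        hR0 (by rw [abs_le]; constructor <;> linarith) (by
          intro u hu
          rw [abs_le] at hu
          have hu0 : 0 ≤ u := by linarith
          have h2 := hM v u (v + h) hv hu0 (by linarith) (by linarith)
          have h3 : |v - u| ≤ h := by rw [abs_le]; constructor <;> linarith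
          have h4 : CM * |v - u| * Real.exp ((1 + κ / 4) * (v + h)) ≤ R := by
            rw [hR]; gcongr
          rw [hDv v hv, hDv u hu0]
          have h5 := hf (show u ≤ v by linarith)
          have h6 := le_abs_self (Real.exp v * Q.eval v - Real.exp u * Q.eval u)
          linarith)
      have h2 := havg (v - h / 2) (by linarith)
      have h3 : (∫ u : ℝ, -D u * Real.exp (-(v - h / 2 - u) ^ 2 / (4 * ε))) =
          -∫ u : ℝ, D u * Real.exp (-(v - h / 2 - u) ^ 2 / (4 * ε)) := by
        rw [← integral_neg]; congr 1; funext u; ring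
      rw [h3, neg_div] at h1
      have h4 := neg_abs_le ((∫ u : ℝ, D u * Real.exp (-(v - h / 2 - u) ^ 2 / (4 * ε))) /
        Real.sqrt (Real.pi * (4 * ε)))
      nlinarith
    · have h1 := gauss_dom hDm hA hb.le hDbd (v := v) (v' := v + h / 2) (h := h) (ε := ε) (R := R) hv
        hh0 hε hR0 (by rw [abs_le]; constructor <;> linarith) (by
          intro u hu
          rw [abs_le] at hu
          have hu0 : 0 ≤ u := by linarith
          have h2 := hM u v (v + h) hu0 hv (by linarith) (by linarith)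
          have h3 : |u - v| ≤ h := by rw [abs_le]; constructor <;> linarith
          have h4 : CM * |u - v| * Real.exp ((1 + κ / 4) * (v + h)) ≤ R := by
            rw [hR]; gcongr
          rw [hDv v hv, hDv u hu0]
          have h5 := hf (show v ≤ u by linarith)
          have h6 := le_abs_self (Real.exp u * Q.eval u - Real.exp v * Q.eval v)
          linarith)
      have h2 := havg (v + h / 2) le_rfl
      have h4 := le_abs_self ((∫ u : ℝ, D u * Real.exp (-(v + h / 2 - u) ^ 2 / (4 * ε))) /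
        Real.sqrt (Real.pi * (4 * ε)))
      nlinarith

end Pool.Agent.J4H30.GS
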