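import Pool.Agent.J4H38.GS.Stm

/-!
# The pointwise companion of project GS (row MP_bc6037_nt): statements

For almost every shift `α ∈ [0,1)^k` the error term is `O(x^(1/2+ε))` (for `α = 0` and all `k` this is equivalent to the
Lindelöf hypothesis).
-/

set_option autoImplicit false

open MeasureTheory Set Filter Polynomial

namespace Pool.Agent.J4H30.GS

open Pool.Agent.J4H38.GS

noncomputable section

/-- (FM), the first moment version of FU.  As `t_FU` in `Pool/Agent/J4H13/GS/Fu.lean`: for `1 ≤ |t|`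
`∫⁻ a, ‖DD a s + 1/(s-1)‖ₑ ≤ C' (1 + |t|)^(1/2 - σ)`, from `one_factor` and `x ≤ (lam + x²/lam)/2` with
`lam = (1 + |t|)^(1/2 - σ)` (or Cauchy-Schwarz); so the expectation of the integrand is
`≤ C'^k (1 + |t|)^(k (1/2 - σ)) · 2/(1 + |t|) · |t|^(-κ)`, integrable since `κ > k (1/2 - σ)`. -/
def S_FM : Prop := ∀ (k : ℕ) (σ κ : ℝ), 1 ≤ k → 0 < σ → σ < 1 / 2 → (k : ℝ) * (1 / 2 - σ) < κ →
  ∀ᵐ α ∂(volume.restrict (cube k)),
    ∫⁻ t in {t : ℝ | 1 ≤ |t|}, ‖ZZ k α (σ + t * Complex.I)‖ₑ * ENNReal.ofReal (|t| ^ (-κ)) < ⊤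

/-- the theorem -/
def S_PT : Prop := ∀ k : ℕ, 1 ≤ k → ∀ᵐ α ∂(volume.restrict (cube k)), ∃ P : ℝ[X], P.degree < (k : WithBot ℕ) ∧
  ∀ ε : ℝ, 0 < ε → ∃ C : ℝ, ∀ x : ℝ, 1 ≤ x →
    |(cnt k α x : ℝ) - x * P.eval (Real.log x)| ≤ C * x ^ (1 / 2 + ε)

end

end Pool.Agent.J4H30.GS
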