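import Mathlib
import Pool.Agent.J4H38.GS.Stm

/-!
# (TR) of project GS: the Mellin transform of the counting function
-/

set_option autoImplicit false

namespace Pool.Agent.J4H30.GS

open MeasureTheory Set Filter
open Pool.Agent.J4H38.GS

/-- the splitting of the first coordinate -/
def ceq (k : ℕ) : ℕ × (Fin k → ℕ) ≃ (Fin (k + 1) → ℕ) where
  toFun p := Fin.cons p.1 p.2
  invFun n := (n 0, fun i => n i.succ)
  left_inv p := by ext <;> simp
  right_inv n := by
    funext i
    refine Fin.cases ?_ ?_ i <;> simp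

/-- Sums of products over `Fin k → ℕ`. -/
lemma prod_sum (k : ℕ) : ∀ f : Fin k → ℕ → ℂ, (∀ i, Summable (f i)) →
    HasSum (fun n : Fin k → ℕ => ∏ i, f i (n i)) (∏ i, ∑' m, f i m) := by
  induction k with
  | zero =>
    intro f _
    have h1 : (∏ i : Fin 0, ∑' m, f i m) = 1 := by simp
    rw [h1]
    have h2 : (fun n : Fin 0 → ℕ => ∏ i, f i (n i)) = fun _ => 1 := by
      funext n; simp
    rw [h2]
    exact hasSum_unique _
  | succ k ih =>
    intro f hf
    have h1 := ih (fun i => f i.succ) (fun i => hf i.succ)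
    have h0 := (hf 0).hasSum
    have hn0 : Summable (fun m => ‖f 0 m‖) := summable_norm_iff.mpr (hf 0)
    set g : (Fin k → ℕ) → ℂ := fun n => ∏ i, f i.succ (n i) with hg
    have hn1 : Summable (fun n => ‖g n‖) := (summable_norm_iff (f := g)).mpr h1.summable
    have h2 := h0.mul h1 (summable_mul_of_summable_norm (f := f 0) (g := g) hn0 hn1)
    rw [Fin.prod_univ_succ, ← (ceq k).hasSum_iff]
    have h3 : (fun n : Fin (k + 1) → ℕ => ∏ i, f i (n i)) ∘ (ceq k) =
        fun p : ℕ × (Fin k → ℕ) => f 0 p.1 * ∏ i, f i.succ (p.2 i) := by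
      funext p
      simp only [Function.comp, ceq, Equiv.coe_fn_mk, Fin.prod_univ_succ, Fin.cons_zero,
        Fin.cons_succ]
    rw [h3]
    exact h2

/-- `λ(n) = ∏ (n_i + 1 + α_i)` -/
noncomputable def lam (k : ℕ) (α : Fin k → ℝ) (n : Fin k → ℕ) : ℝ := ∏ i, (((n i : ℝ) + 1) + α i)

lemma lam_ge {k : ℕ} {α : Fin k → ℝ} (hα : ∀ i, 0 ≤ α i) (n : Fin k → ℕ) : 1 ≤ lam k α n := by
  unfold lam
  calc (1 : ℝ) = ∏ i : Fin k, (1 : ℝ) := by simp
    _ ≤ ∏ i, (((n i : ℝ) + 1) + α i) := by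
      apply Finset.prod_le_prod (fun i _ => zero_le_one)
      intro i _
      have h1 := hα i
      have h2 : (0 : ℝ) ≤ n i := by positivity
      linarith

lemma cnt_eq (k : ℕ) (α : Fin k → ℝ) (x : ℝ) : cnt k α x = {n : Fin k → ℕ | lam k α n ≤ x}.ncard := by
  have hinj : Function.Injective (fun (n : Fin k → ℕ) (i : Fin k) => n i + 1) := by
    intro n n' h
    funext i
    have := congr_fun h i
    simpa using this
  rw [← Set.ncard_image_of_injective _ hinj]
  unfold cnt
  congr 1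
  ext n
  constructor
  · rintro ⟨h1, h2⟩
    refine ⟨fun i => n i - 1, ?_, ?_⟩
    · show lam k α (fun i => n i - 1) ≤ x
      unfold lam
      refine le_of_eq_of_le ?_ h2
      apply Finset.prod_congr rfl
      intro i _
      have := h1 i
      rw [Nat.cast_sub this]
      push_cast
      ring
    · funext i
      have := h1 i
      show n i - 1 + 1 = n i
      omega
  · rintro ⟨m, hm, rfl⟩
    refine ⟨fun i => Nat.le_add_left 1 (m i), ?_⟩
    have hm' : lam k α m ≤ x := hm
    unfold lam at hm'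
    simpa using hm'

/-- `λ(n)^{-s}` as a product -/
lemma lam_cpow {k : ℕ} {α : Fin k → ℝ} (hα : ∀ i, 0 ≤ α i) (n : Fin k → ℕ) (s : ℂ) :
    Complex.exp (-s * (Real.log (lam k α n) : ℝ)) =
      ∏ i, (((n i : ℝ) + 1 + α i : ℝ) : ℂ) ^ (-s) := by
  have hpos : ∀ i, 0 < (n i : ℝ) + 1 + α i := fun i => by
    have := hα i
    positivity
  unfold lam
  rw [Real.log_prod (fun i _ => (hpos i).ne')]
  push_cast
  rw [Finset.mul_sum, Complex.exp_sum]
  apply Finset.prod_congr rfl
  intro i _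
  have h0 : ((n i : ℂ) + 1 + (α i : ℂ)) = (((n i : ℝ) + 1 + α i : ℝ) : ℂ) := by push_cast; ring
  rw [h0, Complex.cpow_def_of_ne_zero (by exact_mod_cast (hpos i).ne'),
    ← Complex.ofReal_log (hpos i).le, mul_comm]

/-- the sum of the `λ(n)^{-s}` -/
lemma lam_sum (hH : S_HUR) {k : ℕ} {α : Fin k → ℝ} (hα : ∀ i, 0 ≤ α i) (hα1 : ∀ i, α i < 1) (s : ℂ)
    (hs : 1 < s.re) : HasSum (fun n : Fin k → ℕ => Complex.exp (-s * (Real.log (lam k α n) : ℝ)))
      (∏ i, (DD (α i) s + 1 / (s - 1))) := by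
  have h1 : ∀ i, HasSum (fun n : ℕ => (((n : ℝ) + 1 + α i : ℝ) : ℂ) ^ (-s))
      (DD (α i) s + 1 / (s - 1)) := fun i => hH (α i) (hα i) (hα1 i) s hs
  have h2 := prod_sum k (fun i n => (((n : ℝ) + 1 + α i : ℝ) : ℂ) ^ (-s)) (fun i => (h1 i).summable)
  have h3 : (∏ i, ∑' m : ℕ, (((m : ℝ) + 1 + α i : ℝ) : ℂ) ^ (-s)) =
      ∏ i, (DD (α i) s + 1 / (s - 1)) := Finset.prod_congr rfl fun i _ => (h1 i).tsum_eq
  rw [h3] at h2
  simpa only [lam_cpow hα] using h2

/-- the real sum -/
lemma lam_real (hH : S_HUR) {k : ℕ} {α : Fin k → ℝ} (hα : ∀ i, 0 ≤ α i) (hα1 : ∀ i, α i < 1) (σ : ℝ)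
    (hs : 1 < σ) : Summable (fun n : Fin k → ℕ => Real.exp (-σ * Real.log (lam k α n))) := by
  have h := summable_norm_iff.mpr (lam_sum hH hα hα1 (σ : ℂ) (by simpa using hs)).summable
  refine h.congr ?_
  intro n
  rw [Complex.norm_exp]
  congr 1
  simp

lemma finite_le (hH : S_HUR) {k : ℕ} {α : Fin k → ℝ} (hα : ∀ i, 0 ≤ α i) (hα1 : ∀ i, α i < 1)
    (x : ℝ) : {n : Fin k → ℕ | lam k α n ≤ x}.Finite := by
  have h := (lam_real hH hα hα1 2 (by norm_num)).tendsto_cofinite_zero
  rcases le_or_gt x 0 with hx | hx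
  · have : {n : Fin k → ℕ | lam k α n ≤ x} = ∅ := by
      ext n
      simp only [mem_ofPred_eq, mem_empty_iff_false, iff_false, not_le]
      linarith [lam_ge hα n]
    rw [this]
    exact Set.finite_empty
  · have hev := h.eventually (gt_mem_nhds (show (0 : ℝ) < Real.exp (-2 * Real.log x) from
      Real.exp_pos _))
    have hfin := Filter.eventually_cofinite.mp hev
    refine hfin.subset ?_
    intro n hn
    have hn' : lam k α n ≤ x := hn
    simp only [mem_ofPred_eq, not_lt]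
    apply Real.exp_le_exp.mpr
    have := Real.log_le_log (by linarith [lam_ge hα n]) hn'
    linarith

/-- the bound for the counting function -/
lemma cnt_le (hH : S_HUR) {k : ℕ} {α : Fin k → ℝ} (hα : ∀ i, 0 ≤ α i) (hα1 : ∀ i, α i < 1)
    (x : ℝ) (hx : 1 ≤ x) : (cnt k α x : ℝ) ≤
      (∑' n : Fin k → ℕ, Real.exp (-(3 / 2) * Real.log (lam k α n))) * x ^ (3 / 2 : ℝ) := by
  have hfin := finite_le hH hα hα1 x
  have hx0 : 0 < x := by linarith
  rw [cnt_eq, Set.ncard_eq_toFinset_card _ hfin]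
  have h1 : ∀ n ∈ hfin.toFinset, (1 : ℝ) ≤
      Real.exp (-(3 / 2) * Real.log (lam k α n)) * x ^ (3 / 2 : ℝ) := by
    intro n hn
    have hn' : lam k α n ≤ x := by simpa using hn
    rw [Real.rpow_def_of_pos hx0, ← Real.exp_add]
    apply Real.one_le_exp
    have := Real.log_le_log (by linarith [lam_ge hα n]) hn'
    linarith
  calc ((hfin.toFinset.card : ℕ) : ℝ) = ∑ n ∈ hfin.toFinset, (1 : ℝ) := by simp
    _ ≤ ∑ n ∈ hfin.toFinset, Real.exp (-(3 / 2) * Real.log (lam k α n)) * x ^ (3 / 2 : ℝ) :=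
        Finset.sum_le_sum h1
    _ = (∑ n ∈ hfin.toFinset, Real.exp (-(3 / 2) * Real.log (lam k α n))) * x ^ (3 / 2 : ℝ) := by
        rw [Finset.sum_mul]
    _ ≤ _ := by
        apply mul_le_mul_of_nonneg_right _ (by positivity)
        exact (lam_real hH hα hα1 (3 / 2) (by norm_num)).sum_le_tsum _ (fun n _ => by positivity)

/-- the transform -/
lemma transform (hH : S_HUR) {k : ℕ} {α : Fin k → ℝ} (hα : ∀ i, 0 ≤ α i) (hα1 : ∀ i, α i < 1)
    (s : ℂ) (hs : 1 < s.re) :
    ∫ u in Ioi (0 : ℝ), (cnt k α (Real.exp u) : ℂ) * Complex.exp (-s * u) = ZZ k α s := by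
  set ℓ : (Fin k → ℕ) → ℝ := fun n => Real.log (lam k α n) with hℓ
  have hℓ0 : ∀ n, 0 ≤ ℓ n := fun n => Real.log_nonneg (lam_ge hα n)
  have hre : (-s).re < 0 := by simp; linarith
  set F : (Fin k → ℕ) → ℝ → ℂ := fun n u => (Ici (ℓ n)).indicator (fun u => Complex.exp (-s * u)) u
    with hF
  have hs0 : s ≠ 0 := by
    intro h
    rw [h] at hs
    simp at hs
    linarith
  have hpt : ∀ u : ℝ, (cnt k α (Real.exp u) : ℂ) * Complex.exp (-s * u) = ∑' n, F n u := by
    intro u
    have hfin := finite_le hH hα hα1 (Real.exp u)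
    have hmem : ∀ n, n ∈ hfin.toFinset ↔ ℓ n ≤ u := by
      intro n
      rw [Set.Finite.mem_toFinset, mem_ofPred_eq, hℓ]
      exact (Real.log_le_iff_le_exp (by linarith [lam_ge hα n])).symm
    rw [tsum_eq_sum (s := hfin.toFinset)]
    · have h1 : ∀ n ∈ hfin.toFinset, F n u = Complex.exp (-s * u) := by
        intro n hn
        simp only [hF]
        exact Set.indicator_of_mem (show u ∈ Ici (ℓ n) from (hmem n).mp hn) _
      rw [Finset.sum_congr rfl h1, Finset.sum_const, nsmul_eq_mul, cnt_eq,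
        Set.ncard_eq_toFinset_card _ hfin]
    · intro n hn
      simp only [hF]
      exact Set.indicator_of_notMem (fun h => hn ((hmem n).mpr h)) _
  have hind : ∀ n, ∀ (g : ℝ → ℂ), ∫ u in Ioi (0 : ℝ), (Ici (ℓ n)).indicator g u =
      ∫ u in Ioi (ℓ n), g u := by
    intro n g
    rw [← integral_Ici_eq_integral_Ioi, setIntegral_indicator measurableSet_Ici,
      Ici_inter_Ici, sup_eq_right.mpr (hℓ0 n), integral_Ici_eq_integral_Ioi]
  have hintF : ∀ n, Integrable (F n) (volume.restrict (Ioi 0)) := by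
    intro n
    have h1 : IntegrableOn (fun u : ℝ => Complex.exp (-s * u)) (Ioi 0) :=
      integrableOn_exp_mul_complex_Ioi hre 0
    exact h1.integrable.indicator measurableSet_Ici
  have hval : ∀ n, ∫ u in Ioi (0 : ℝ), F n u = Complex.exp (-s * ℓ n) / s := by
    intro n
    simp only [hF]
    rw [hind n, integral_exp_mul_complex_Ioi hre]
    field_simp
  have hnorm : ∀ n, ∫ u in Ioi (0 : ℝ), ‖F n u‖ = Real.exp (-s.re * ℓ n) / s.re := by
    intro n
    have h1 : ∀ u, ‖F n u‖ = (Ici (ℓ n)).indicator (fun u => Real.exp (-s.re * u)) u := by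
      intro u
      simp only [hF]
      rw [norm_indicator_eq_indicator_norm]
      congr 1
      funext v
      rw [Complex.norm_exp]
      congr 1
      simp
    simp_rw [h1]
    rw [← integral_Ici_eq_integral_Ioi, setIntegral_indicator measurableSet_Ici,
      Ici_inter_Ici, sup_eq_right.mpr (hℓ0 n), integral_Ici_eq_integral_Ioi,
      integral_exp_mul_Ioi (by linarith)]
    field_simp
  have hsum := hasSum_integral_of_summable_integral_norm (μ := volume.restrict (Ioi (0 : ℝ)))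
    (F := F) hintF (by
      simp_rw [hnorm]
      exact (lam_real hH hα hα1 s.re hs).div_const _)
  simp_rw [hval] at hsum
  have h2 := (lam_sum hH hα hα1 s hs).div_const s
  have h3 := hsum.unique h2
  simp_rw [hpt]
  rw [h3]
  rfl

theorem t_TR : S_HUR → S_TR := by
  intro hH k α hα
  have hα0 : ∀ i, 0 ≤ α i := fun i => (hα i (mem_univ i)).1
  have hα1 : ∀ i, α i < 1 := fun i => (hα i (mem_univ i)).2
  refine ⟨?_, ⟨∑' n : Fin k → ℕ, Real.exp (-(3 / 2) * Real.log (lam k α n)), ?_, ?_⟩, ?_⟩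
  · apply Monotone.measurable
    intro x y hxy
    show (cnt k α x : ℝ) ≤ cnt k α y
    rw [cnt_eq, cnt_eq]
    have hsub : {n : Fin k → ℕ | lam k α n ≤ x} ⊆ {n : Fin k → ℕ | lam k α n ≤ y} :=
      fun n hn => le_trans hn hxy
    exact_mod_cast Set.ncard_le_ncard hsub (finite_le hH hα0 hα1 y)
  · exact tsum_nonneg fun n => (Real.exp_pos _).le
  · intro x hx
    exact cnt_le hH hα0 hα1 x hx
  · intro s hs
    exact transform hH hα0 hα1 s (by linarith)

end Pool.Agent.J4H30.GS
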