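import Pool.Agent.J4H30.GS.Stm2
import Pool.Agent.J4H94.GS.Z4

/-!
# (Z4P): the weighted integral of the powers of zeta to the left of the critical line (adapted from helper94's Z4)
-/

set_option autoImplicit false

open MeasureTheory Set Filter Polynomial

namespace Pool.Agent.J4H30.GS

open Pool.Agent.J4H38.GS Pool.Agent.J4H94.GS

/-- (Z4P) -/
theorem t_Z4P : S_Z2 → S_Z3 → S_Z4P := by
  intro h2 h3 J k σ κ hJ hσ0 hσ1 hκ
  obtain ⟨C, hC, h2⟩ := h2 σ hσ0 hσ1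
  obtain ⟨K, hKd⟩ : ∃ K : ℝ, K = ((J + k : ℕ) : ℝ) := ⟨_, rfl⟩
  rw [← hKd] at hκ
  have hK2 : K = J + k := by rw [hKd]; push_cast; rfl
  obtain ⟨w, hw⟩ : ∃ w, w = 1 + κ - K * (1 / 2 - σ) := ⟨_, rfl⟩
  have hw2 : 1 < w := by rw [hw]; linarith
  have h3 := h3 (1 - σ) w (by linarith) (by linarith) hw2
  have hpt : ∀ t ∈ {t : ℝ | 1 ≤ |t|}, ‖riemannZeta (σ + t * Complex.I)‖ₑ ^ J *
      ENNReal.ofReal (|t| ^ ((k : ℝ) * (1 / 2 - σ) - 1 - κ)) ≤ ENNReal.ofReal (C ^ J) *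
      (ENNReal.ofReal (|t| ^ (-w)) + ‖riemannZeta ((1 - σ : ℝ) + t * Complex.I)‖ₑ ^ 4 * ENNReal.ofReal (|t| ^ (-w))) := by
    intro t ht
    have ht1 : 1 ≤ |t| := ht
    have ht0 : 0 < |t| := by linarith
    have hb := h2 t ht1
    obtain ⟨z, hz⟩ : ∃ z, z = ‖riemannZeta (σ + t * Complex.I)‖ := ⟨_, rfl⟩
    obtain ⟨z', hz'⟩ : ∃ z', z' = ‖riemannZeta ((1 - σ : ℝ) + t * Complex.I)‖ := ⟨_, rfl⟩
    have hz0 : 0 ≤ z := by rw [hz]; exact norm_nonneg _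
    have hz'0 : 0 ≤ z' := by rw [hz']; exact norm_nonneg _
    rw [← ofReal_norm, ← ofReal_norm, ← hz, ← hz', ← ENNReal.ofReal_pow hz0, ← ENNReal.ofReal_pow hz'0,
      ← ENNReal.ofReal_mul (by positivity), ← ENNReal.ofReal_mul (by positivity),
      ← ENNReal.ofReal_add (by positivity) (by positivity), ← ENNReal.ofReal_mul (by positivity)]
    apply ENNReal.ofReal_le_ofReal
    rw [← hz, ← hz'] at hb
    have e1 : z ^ J ≤ (C * |t| ^ (1 / 2 - σ) * z') ^ J := pow_le_pow_left₀ hz0 hb _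
    have e2 : (|t| ^ (1 / 2 - σ)) ^ J = |t| ^ ((J : ℝ) * (1 / 2 - σ)) := by
      rw [← Real.rpow_natCast, ← Real.rpow_mul ht0.le]
      congr 1
      ring
    have e3 : |t| ^ ((J : ℝ) * (1 / 2 - σ)) * |t| ^ ((k : ℝ) * (1 / 2 - σ) - 1 - κ) = |t| ^ (-w) := by
      rw [← Real.rpow_add ht0]
      congr 1
      rw [hw, hK2]; ring
    have e4 : z' ^ J ≤ 1 + z' ^ 4 := by
      rcases le_or_gt z' 1 with h | h
      · have h1 : z' ^ J ≤ 1 := pow_le_one₀ hz'0 h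
        have h2 : 0 ≤ z' ^ 4 := by positivity
        linarith
      · have h1 : z' ^ J ≤ z' ^ 4 := pow_le_pow_right₀ h.le hJ
        linarith
    calc z ^ J * |t| ^ ((k : ℝ) * (1 / 2 - σ) - 1 - κ) ≤
          (C * |t| ^ (1 / 2 - σ) * z') ^ J * |t| ^ ((k : ℝ) * (1 / 2 - σ) - 1 - κ) :=
          mul_le_mul_of_nonneg_right e1 (by positivity)
      _ = C ^ J * z' ^ J * |t| ^ (-w) := by
          rw [mul_pow, mul_pow, e2, ← e3]; ring
      _ ≤ C ^ J * (1 + z' ^ 4) * |t| ^ (-w) := by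
          apply mul_le_mul_of_nonneg_right _ (by positivity)
          exact mul_le_mul_of_nonneg_left e4 (by positivity)
      _ = C ^ J * (|t| ^ (-w) + z' ^ 4 * |t| ^ (-w)) := by ring
  refine lt_of_le_of_lt (setLIntegral_mono' meas_S hpt) ?_
  rw [lintegral_const_mul' _ _ ENNReal.ofReal_ne_top]
  refine ENNReal.mul_lt_top ENNReal.ofReal_lt_top ?_
  rw [lintegral_add_left (by fun_prop)]
  exact ENNReal.add_lt_top.2 ⟨tail_fin hw2, h3⟩

end Pool.Agent.J4H30.GS
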